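import Pool.Agent.HGC.Defs

/-!
# Points and lines

The definitions which are used in the statement of the final theorem.
-/

set_option autoImplicit false

open scoped BigOperators LinearAlgebra.Projectivization

namespace Pool.Agent.Ptl

open Pool.Agent.HGC

/-- A finite set `T` of triples of elements of `{0, ..., n - 1}` such that every element is in at most three
triples and any `k` triples with `1 ≤ k ≤ g` have at least `2 k + 1` elements together. (This says that there
are no cycles of length at most `g`; for `k = 2`: two triples have at most one element in common.) -/
structure TripleSystem (g : ℕ) where
  /-- the number of elements -/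
  n : ℕ
  /-- the triples -/
  T : Finset (Finset (Fin n))
  /-- they have three elements -/
  three : ∀ t ∈ T, t.card = 3
  /-- every element is in at most three triples -/
  deg : ∀ i, (T.filter fun t => i ∈ t).card ≤ 3
  /-- `k` triples, `1 ≤ k ≤ g`, have at least `2 k + 1` elements together -/
  sparse : ∀ S ⊆ T, S.Nonempty → S.card ≤ g → 2 * S.card + 1 ≤ (S.biUnion id).card

/-- The number of ways to choose a point of the projective plane over `K` for every element and a line for every
triple such that the point of `i` lies on the line of `t` for all `i ∈ t`. A line is given by the coefficients
of its equation. -/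
noncomputable def TripleSystem.cnt {g : ℕ} (C : TripleSystem g) (K : Type) [Field K] : ℕ :=
  Nat.card {x : (Fin C.n → ℙ K (Fin 3 → K)) × (C.T → ℙ K (Fin 3 → K)) //
    ∀ (t : C.T) (i : Fin C.n), i ∈ t.1 → (x.1 i).orthogonal (x.2 t)}

/-- The function `cnt` of finite fields as a function of prime powers. -/
noncomputable def TripleSystem.count {g : ℕ} (C : TripleSystem g) : PF := countPF fun K _ => C.cnt K

end Pool.Agent.Ptl
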