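import Pool.Agent.KG.Defs
import Pool.Agent.Ptl.Poly

/-!
# Points and lines: auxiliary definitions

Nothing in this file is used in the statement of the final theorem. All types are in `Type`.
-/

set_option autoImplicit false

open scoped BigOperators LinearAlgebra.Projectivization

namespace Pool.Agent.Ptl

open Pool.Agent.KG Pool.Agent.HGC

/-! ### planes and incidence patterns -/

/-- The properties of a finite projective plane of order `q` which are used: `I p l` says that the point `p` is on
the line `l`. -/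
structure Plane {P L : Type} (I : P → L → Prop) (q : ℕ) : Prop where
  fp : Finite P
  fl : Finite L
  cp : Nat.card P = q ^ 2 + q + 1
  cl : Nat.card L = q ^ 2 + q + 1
  lines : ∀ p, Nat.card {l // I p l} = q + 1
  points : ∀ l, Nat.card {p // I p l} = q + 1
  line : ∀ p p', p ≠ p' → Nat.card {l // I p l ∧ I p' l} = 1
  point : ∀ l l', l ≠ l' → Nat.card {p // I p l ∧ I p l'} = 1

/-- The number of pairs (map of `A` to the points, map of `B` to the lines) such that related elements go to an
incident pair. -/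
noncomputable def hom {A B P L : Type} (I : P → L → Prop) (R : A → B → Prop) : ℕ :=
  Nat.card {x : (A → P) × (B → L) // ∀ a b, R a b → I (x.1 a) (x.2 b)}

/-- Incidence in the projective plane over `K`. -/
def inc (K : Type) [Field K] : ℙ K (Fin 3 → K) → ℙ K (Fin 3 → K) → Prop := Projectivization.orthogonal

/-- `hom` for the projective plane over a finite field. -/
noncomputable def hc {A B : Type} (R : A → B → Prop) : FinField → ℤ := fun F => (hom (inc F.K) R : ℤ)

/-- The number of lines through `a`. -/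
noncomputable def dA {A B : Type} (R : A → B → Prop) (a : A) : ℕ := {b | R a b}.ncard

/-- The number of points on `b`. -/
noncomputable def dB {A B : Type} (R : A → B → Prop) (b : B) : ℕ := {a | R a b}.ncard

/-- All degrees are at most three. -/
def Sub3 {A B : Type} (R : A → B → Prop) : Prop := (∀ a, dA R a ≤ 3) ∧ ∀ b, dB R b ≤ 3

/-- The total excess of the degrees over three. -/
noncomputable def exc {A B : Type} [Fintype A] [Fintype B] (R : A → B → Prop) : ℕ :=
  ∑ a, (dA R a - 3) + ∑ b, (dB R b - 3)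

/-- Every set of at most `g` lines is a forest. -/
def Sparse {A B : Type} (g : ℕ) (R : A → B → Prop) : Prop :=
  ∀ S : Set B, S.Nonempty → S.ncard ≤ g →
    {x : A × B | x.2 ∈ S ∧ R x.1 x.2}.ncard + 1 ≤ S.ncard + {a | ∃ b ∈ S, R a b}.ncard

/-- The relation given by a finite set of pairs. -/
def rel {A B : Type} (E : Finset (A × B)) : A → B → Prop := fun a b => (a, b) ∈ E

/-! ### splitting a point -/

/-- The lines of `S` through the point `a0` go to a new point `none`. -/
def splitU {A B : Type} (R : A → B → Prop) (a0 : A) (S : Set B) : Option A → B → Prop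
  | none, b => R a0 b ∧ b ∈ S
  | some a, b => R a b ∧ ¬ (a = a0 ∧ b ∈ S)

/-- The same, and the new point and `a0` are joined by a new line `none`. -/
def splitJ {A B : Type} (R : A → B → Prop) (a0 : A) (S : Set B) : Option A → Option B → Prop
  | none, none => True
  | none, some b => R a0 b ∧ b ∈ S
  | some a, none => a = a0
  | some a, some b => R a b ∧ ¬ (a = a0 ∧ b ∈ S)

/-! ### subdivision of all edges -/

/-- `l ∋ x_0 ∈ y_0 ∋ x_1 ∈ y_1 ∋ ... ∋ x_(m-1) ∈ y_(m-1) ∋ p` is a path: `x_i` and `x_(i+1)` are on `y_i`. -/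
def IsPath {P L : Type} (I : P → L → Prop) {m : ℕ} (p : P) (l : L) (x : Fin m → P) (y : Fin m → L) : Prop :=
  (∀ i, I (x i) (y i)) ∧ (∀ i j : Fin m, (i : ℕ) = j + 1 → I (x i) (y j)) ∧
    (∀ i : Fin m, (i : ℕ) = 0 → I (x i) l) ∧ ∀ i : Fin m, (i : ℕ) + 1 = m → I p (y i)

/-- The constant in the number of paths. -/
def cst (q : ℕ) : ℕ → ℕ
  | 0 => 0
  | m + 1 => q ^ m * (q + 1) + (q + 1) ^ 2 * cst q m

/-- The same as a polynomial in `q`. -/
noncomputable def cstP : ℕ → Polynomial ℤ
  | 0 => 0
  | m + 1 => Polynomial.X ^ m * (Polynomial.X + 1) + (Polynomial.X + 1) ^ 2 * cstP m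

/-- Every pair of `E` is replaced by a path with `m` new points and `m` new lines. -/
def subE {A B : Type} (m : ℕ) (E : Finset (A × B)) : A ⊕ (E × Fin m) → B ⊕ (E × Fin m) → Prop
  | Sum.inl _, Sum.inl _ => False
  | Sum.inl a, Sum.inr (e, i) => e.1.1 = a ∧ (i : ℕ) + 1 = m
  | Sum.inr (e, i), Sum.inl b => e.1.2 = b ∧ (i : ℕ) = 0
  | Sum.inr (e, i), Sum.inr (f, j) => e = f ∧ (i = j ∨ (i : ℕ) = j + 1)

/-! ### pending points -/

/-- The new points are put on the lines: `m b` of them on the line `b`. -/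
def pend {A B : Type} (R : A → B → Prop) (m : B → ℕ) : A ⊕ (Σ b : B, Fin (m b)) → B → Prop
  | Sum.inl a, b => R a b
  | Sum.inr s, b => s.1 = b

/-! ### collinear and non-collinear triples of points -/

/-- Three points are on a line. -/
def Col {P L : Type} (I : P → L → Prop) (a b c : P) : Prop := ∃ l, I a l ∧ I b l ∧ I c l

/-- A new line `none` on which the three points of `t` are required to be. -/
def addL {W H : Type} (R : W → H → Prop) (t : W × W × W) : W → Option H → Prop
  | w, none => w = t.1 ∨ w = t.2.1 ∨ w = t.2.2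
  | w, some h => R w h

/-- The number of solutions of an incidence pattern `R` such that the triples of points in `C` are collinear and the
triples in `N` are not collinear. -/
noncomputable def wc {P L W H : Type} (I : P → L → Prop) (C N : Set (W × W × W)) (R : W → H → Prop) : ℕ :=
  Nat.card {x : (W → P) × (H → L) // (∀ t ∈ C, Col I (x.1 t.1) (x.1 t.2.1) (x.1 t.2.2)) ∧
    (∀ t ∈ N, ¬ Col I (x.1 t.1) (x.1 t.2.1) (x.1 t.2.2)) ∧ ∀ a b, R a b → I (x.1 a) (x.2 b)}

/-- The number of families of points such that the triples of points in `C` are collinear and the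
triples in `N` are not collinear. -/
noncomputable def pc {P L W : Type} (I : P → L → Prop) (C N : Set (W × W × W)) : ℕ :=
  Nat.card {x : W → P // (∀ t ∈ C, Col I (x t.1) (x t.2.1) (x t.2.2)) ∧
    ∀ t ∈ N, ¬ Col I (x t.1) (x t.2.1) (x t.2.2)}

/-! ### vectors -/

/-- The determinant of three vectors of `K ^ 3`. -/
def D3 {K : Type} [Field K] (x y z : Fin 3 → K) : K := (Matrix.of ![x, y, z]).det

/-- The conditions on a family of vectors. -/
def VC {K W : Type} [Field K] (C N : Set (W × W × W)) (x : W → Fin 3 → K) : Prop :=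
  (∀ w, x w ≠ 0) ∧ (∀ t ∈ C, D3 (x t.1) (x t.2.1) (x t.2.2) = 0) ∧ ∀ t ∈ N, D3 (x t.1) (x t.2.1) (x t.2.2) ≠ 0

/-- The standard frame `(1,0,0), (0,1,0), (0,0,1), (1,1,1)`. -/
def std (K : Type) [Field K] : Fin 4 → Fin 3 → K := ![![1, 0, 0], ![0, 1, 0], ![0, 0, 1], ![1, 1, 1]]

/-- The triples of the first four points. -/
def frm {Q : Type} : Set ((Fin 4 ⊕ Q) × (Fin 4 ⊕ Q) × (Fin 4 ⊕ Q)) :=
  {(Sum.inl 0, Sum.inl 1, Sum.inl 2), (Sum.inl 0, Sum.inl 1, Sum.inl 3), (Sum.inl 0, Sum.inl 2, Sum.inl 3),
    (Sum.inl 1, Sum.inl 2, Sum.inl 3)}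

/-! ### the configuration of a system of equations -/

/-- The points besides the frame: two auxiliary points, four points for each variable, two for each equation. -/
abbrev Qt (V J : Type) := Fin 2 ⊕ (V × Fin 4) ⊕ (J × Fin 2)

/-- The points of the configuration. -/
abbrev Pt (V J : Type) := Fin 4 ⊕ Qt V J

section

variable {V J : Type}

/-- the point `(0,0)`, i.e. `(1,0,0)` in homogeneous coordinates -/
def pO : Pt V J := Sum.inl 0
/-- the point at infinity of the first axis, `(0,1,0)` -/
def pX : Pt V J := Sum.inl 1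
/-- the point at infinity of the second axis, `(0,0,1)` -/
def pY : Pt V J := Sum.inl 2
/-- the point `(1,1)`, i.e. `(1,1,1)` -/
def pU : Pt V J := Sum.inl 3
/-- the point at infinity of the diagonal, `(0,1,1)` -/
def pD : Pt V J := Sum.inr (Sum.inl 0)
/-- the point `(1,0)`, i.e. `(1,1,0)` -/
def pS : Pt V J := Sum.inr (Sum.inl 1)
/-- the point `(x, 0)`, `x` the value of the variable `v` -/
def pA (v : V) : Pt V J := Sum.inr (Sum.inr (Sum.inl (v, 0)))
/-- the point `(x, x)` -/
def pE (v : V) : Pt V J := Sum.inr (Sum.inr (Sum.inl (v, 1)))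
/-- the point `(0, x)` -/
def pB (v : V) : Pt V J := Sum.inr (Sum.inr (Sum.inl (v, 2)))
/-- the point `(1, x)` -/
def pR (v : V) : Pt V J := Sum.inr (Sum.inr (Sum.inl (v, 3)))
/-- the point `(c, c + d)` for the equation `a b = c + d` -/
def pT (j : J) : Pt V J := Sum.inr (Sum.inr (Sum.inr (j, 0)))
/-- the point `(a, c + d)` for the equation `a b = c + d` -/
def pW (j : J) : Pt V J := Sum.inr (Sum.inr (Sum.inr (j, 1)))

/-- The collinear triples. -/
inductive CC (G : Gadget V J) : Pt V J × Pt V J × Pt V J → Prop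
  | d1 : CC G (pO, pU, pD)
  | d2 : CC G (pX, pY, pD)
  | s1 : CC G (pO, pX, pS)
  | s2 : CC G (pU, pY, pS)
  | a (v : V) : CC G (pO, pX, pA v)
  | e1 (v : V) : CC G (pO, pU, pE v)
  | e2 (v : V) : CC G (pA v, pY, pE v)
  | b1 (v : V) : CC G (pO, pY, pB v)
  | b2 (v : V) : CC G (pE v, pX, pB v)
  | r1 (v : V) : CC G (pS, pY, pR v)
  | r2 (v : V) : CC G (pB v, pX, pR v)
  | t1 (j : J) : CC G (pA (G.C j), pY, pT j)
  | t2 (j : J) : CC G (pB (G.D j), pD, pT j)
  | w1 (j : J) : CC G (pA (G.A j), pY, pW j)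
  | w2 (j : J) : CC G (pX, pT j, pW j)
  | eq (j : J) : CC G (pO, pR (G.B j), pW j)
  | one : CC G (pU, pY, pA G.o)

/-- The triples which are not collinear. -/
inductive NN : Pt V J × Pt V J × Pt V J → Prop
  | f1 : NN (pO, pX, pY)
  | f2 : NN (pO, pX, pU)
  | f3 : NN (pO, pY, pU)
  | f4 : NN (pX, pY, pU)
  | a (v : V) : NN (pA v, pX, pY)

/-- The positions of the points besides the frame for the values `v` of the variables. -/
def pos {K : Type} [Field K] (G : Gadget V J) (v : V → K) : Qt V J → Fin 3 → K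
  | Sum.inl i => if i = 0 then ![0, 1, 1] else ![1, 1, 0]
  | Sum.inr (Sum.inl (a, i)) =>
    (![![1, v a, 0], ![1, v a, v a], ![1, 0, v a], ![1, 1, v a]] : Fin 4 → Fin 3 → K) i
  | Sum.inr (Sum.inr (j, i)) =>
    (![![1, v (G.C j), v (G.C j) + v (G.D j)], ![1, v (G.A j), v (G.C j) + v (G.D j)]] : Fin 2 → Fin 3 → K) i

end

/-- The functions `cnt` of the triple systems. -/
def TS (g : ℕ) : Set (FinField → ℤ) := {f | ∃ C : TripleSystem g, f = fun F => (C.cnt F.K : ℤ)}

end Pool.Agent.Ptl
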