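import Pool.Agent.Ptl.Defs

/-! # The configuration of a system of equations in a fixed frame -/

set_option autoImplicit false

open scoped BigOperators LinearAlgebra.Projectivization Matrix

namespace Pool.Agent.Ptl

open Pool.Agent.KG Pool.Agent.HGC

private theorem STA_D3 {K : Type} [Field K] (x y z : Fin 3 → K) : D3 x y z =
    x 0 * (y 1 * z 2 - y 2 * z 1) - x 1 * (y 0 * z 2 - y 2 * z 0) +
      x 2 * (y 0 * z 1 - y 1 * z 0) := by
  unfold D3
  rw [Matrix.det_fin_three]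
  simp only [Matrix.of_apply, Matrix.cons_val_zero, Matrix.cons_val_one, Matrix.cons_val_two,
    Matrix.cons_val', Matrix.cons_val_fin_one, Matrix.tail_cons, Matrix.head_fin_const]
  ring

private theorem STA_vec {K : Type} [Field K] {Y : Fin 3 → K} (c p0 p1 p2 : K) (hY : Y ≠ 0)
    (h0 : Y 0 = c * p0) (h1 : Y 1 = c * p1) (h2 : Y 2 = c * p2) :
    c ≠ 0 ∧ ∃ s : Kˣ, Y = (s : K) • ![p0, p1, p2] := by
  have e : Y = c • ![p0, p1, p2] := by
    funext i
    fin_cases i
    · exact h0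
    · exact h1
    · exact h2
  have hc : c ≠ 0 := by
    rintro rfl
    exact hY (by rw [e, zero_smul])
  exact ⟨hc, Units.mk0 c hc, e⟩

/-- The equations for the vectors of the points. -/
private theorem STA_sol {V J K : Type} [Field K] (G : Gadget V J) (y : Qt V J → Fin 3 → K)
    (h : VC {t | CC G t} {t | NN t} (Sum.elim (std K) y)) :
    ∃ v : V → K, ∀ w, ∃ s : Kˣ, y w = (s : K) • pos G v w := by
  obtain ⟨h0, hC, hN⟩ := h
  have s0 : std K 0 = ![1, 0, 0] := rfl
  have s1 : std K 1 = ![0, 1, 0] := rfl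
  have s2 : std K 2 = ![0, 0, 1] := rfl
  have s3 : std K 3 = ![1, 1, 1] := rfl
  -- the vectors
  obtain ⟨D, hD⟩ : ∃ D : Fin 3 → K, y (Sum.inl 0) = D := ⟨_, rfl⟩
  obtain ⟨S, hS⟩ : ∃ S : Fin 3 → K, y (Sum.inl 1) = S := ⟨_, rfl⟩
  obtain ⟨A, hA⟩ : ∃ A : V → Fin 3 → K, ∀ v, y (Sum.inr (Sum.inl (v, 0))) = A v :=
    ⟨_, fun _ => rfl⟩
  obtain ⟨E, hE⟩ : ∃ A : V → Fin 3 → K, ∀ v, y (Sum.inr (Sum.inl (v, 1))) = A v :=
    ⟨_, fun _ => rfl⟩
  obtain ⟨B, hB⟩ : ∃ A : V → Fin 3 → K, ∀ v, y (Sum.inr (Sum.inl (v, 2))) = A v :=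
    ⟨_, fun _ => rfl⟩
  obtain ⟨R, hR⟩ : ∃ A : V → Fin 3 → K, ∀ v, y (Sum.inr (Sum.inl (v, 3))) = A v :=
    ⟨_, fun _ => rfl⟩
  obtain ⟨T, hT⟩ : ∃ A : J → Fin 3 → K, ∀ j, y (Sum.inr (Sum.inr (j, 0))) = A j :=
    ⟨_, fun _ => rfl⟩
  obtain ⟨W, hW⟩ : ∃ A : J → Fin 3 → K, ∀ j, y (Sum.inr (Sum.inr (j, 1))) = A j :=
    ⟨_, fun _ => rfl⟩
  have D0 : D ≠ 0 := by rw [← hD]; exact h0 (Sum.inr _)
  have S0 : S ≠ 0 := by rw [← hS]; exact h0 (Sum.inr _)
  have E0 : ∀ v, E v ≠ 0 := fun v => by rw [← hE]; exact h0 (Sum.inr _)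
  have A0' : ∀ v, A v ≠ 0 := fun v => by rw [← hA]; exact h0 (Sum.inr _)
  have B0 : ∀ v, B v ≠ 0 := fun v => by rw [← hB]; exact h0 (Sum.inr _)
  have R0 : ∀ v, R v ≠ 0 := fun v => by rw [← hR]; exact h0 (Sum.inr _)
  have T0 : ∀ v, T v ≠ 0 := fun v => by rw [← hT]; exact h0 (Sum.inr _)
  have W0 : ∀ v, W v ≠ 0 := fun v => by rw [← hW]; exact h0 (Sum.inr _)
  -- the equations
  have d1 := hC _ (CC.d1 : CC G _)
  have d2 := hC _ (CC.d2 : CC G _)
  have s1' := hC _ (CC.s1 : CC G _)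
  have s2' := hC _ (CC.s2 : CC G _)
  have a := fun v => hC _ (CC.a v : CC G _)
  have e1 := fun v => hC _ (CC.e1 v : CC G _)
  have e2 := fun v => hC _ (CC.e2 v : CC G _)
  have b1 := fun v => hC _ (CC.b1 v : CC G _)
  have b2 := fun v => hC _ (CC.b2 v : CC G _)
  have r1 := fun v => hC _ (CC.r1 v : CC G _)
  have r2 := fun v => hC _ (CC.r2 v : CC G _)
  have t1 := fun j => hC _ (CC.t1 j : CC G _)
  have t2 := fun j => hC _ (CC.t2 j : CC G _)
  have w1 := fun j => hC _ (CC.w1 j : CC G _)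
  have w2 := fun j => hC _ (CC.w2 j : CC G _)
  have na := fun v => hN _ (NN.a v)
  simp only [pO, pX, pY, pU, pD, pS, pA, pE, pB, pR, pT, pW, Sum.elim_inl, Sum.elim_inr, STA_D3,
    s0, s1, s2, s3, hD, hS, hA, hE, hB, hR, hT, hW,
    Matrix.cons_val_zero, Matrix.cons_val_one, Matrix.cons_val]
    at d1 d2 s1' s2' a e1 e2 b1 b2 r1 r2 t1 t2 w1 w2 na
  -- `D` and `S`
  have fD := STA_vec (D 1) 0 1 1 D0
    (by linear_combination d2)
    (by ring)
    (by linear_combination d1)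
  have fS := STA_vec (S 0) 1 1 0 S0
    (by ring)
    (by linear_combination -s2')
    (by linear_combination s1')
  have hS1 : S 1 = S 0 := by linear_combination -s2'
  have hS2 : S 2 = 0 := by linear_combination s1'
  have hD0 : D 0 = 0 := by linear_combination d2
  have hD2 : D 2 = D 1 := by linear_combination d1
  -- `A`
  have hA0 : ∀ v, A v 0 ≠ 0 := fun v h => na v (by rw [h]; ring)
  have hA2 : ∀ v, A v 2 = 0 := fun v => by linear_combination a v
  obtain ⟨x, hx⟩ : ∃ x : V → K, ∀ v, A v 1 = A v 0 * x v :=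
    ⟨fun v => A v 1 / A v 0, fun v => (mul_div_cancel₀ _ (hA0 v)).symm⟩
  have fA : ∀ v, A v 0 ≠ 0 ∧ ∃ s : Kˣ, A v = (s : K) • ![1, x v, 0] := fun v =>
    STA_vec (A v 0) 1 (x v) 0 (A0' v)
      (by ring)
      (by exact hx v)
      (by linear_combination hA2 v)
  -- `E`
  have hE1 : ∀ v, E v 1 = E v 0 * x v := fun v => by
    refine mul_left_cancel₀ (hA0 v) ?_
    linear_combination -(e2 v) + E v 0 * hx v + (0 * E v 1 - 0 * E v 0) * hA2 v
  have hE2 : ∀ v, E v 2 = E v 0 * x v := fun v => by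
    linear_combination e1 v + hE1 v
  have fE : ∀ v, E v 0 ≠ 0 ∧ ∃ s : Kˣ, E v = (s : K) • ![1, x v, x v] := fun v =>
    STA_vec (E v 0) 1 (x v) (x v) (E0 v)
      (by ring)
      (by exact hE1 v)
      (by exact hE2 v)
  -- `B`
  have hB1 : ∀ v, B v 1 = 0 := fun v => by linear_combination -(b1 v)
  have hB2 : ∀ v, B v 2 = B v 0 * x v := fun v => by
    refine mul_left_cancel₀ (fE v).1 ?_
    linear_combination b2 v + B v 0 * hE2 v
  have fB : ∀ v, B v 0 ≠ 0 ∧ ∃ s : Kˣ, B v = (s : K) • ![1, 0, x v] := fun v =>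
    STA_vec (B v 0) 1 0 (x v) (B0 v)
      (by ring)
      (by linear_combination hB1 v)
      (by exact hB2 v)
  -- `R`
  have hR1 : ∀ v, R v 1 = R v 0 := fun v => by
    refine mul_left_cancel₀ fS.1 ?_
    linear_combination -(r1 v) + R v 0 * hS1
  have hR2 : ∀ v, R v 2 = R v 0 * x v := fun v => by
    refine mul_left_cancel₀ (fB v).1 ?_
    linear_combination r2 v + R v 0 * hB2 v
  have fR : ∀ v, R v 0 ≠ 0 ∧ ∃ s : Kˣ, R v = (s : K) • ![1, 1, x v] := fun v =>
    STA_vec (R v 0) 1 1 (x v) (R0 v)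
      (by ring)
      (by linear_combination hR1 v)
      (by exact hR2 v)
  -- `T`
  have hT1 : ∀ j, T j 1 = T j 0 * x (G.C j) := fun j => by
    refine mul_left_cancel₀ (hA0 (G.C j)) ?_
    linear_combination -(t1 j) + T j 0 * hx (G.C j)
  have hT2 : ∀ j, T j 2 = T j 0 * (x (G.C j) + x (G.D j)) := fun j => by
    refine mul_left_cancel₀ (fB (G.D j)).1 (mul_left_cancel₀ fD.1 ?_)
    linear_combination t2 j + B (G.D j) 0 * T j 1 * hD2 + B (G.D j) 0 * D 1 * hT1 j +
      D 1 * T j 0 * hB2 (G.D j) + (D 0 * T j 2 - D 2 * T j 0) * hB1 (G.D j) -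
      B (G.D j) 2 * T j 1 * hD0
  have fT : ∀ j, T j 0 ≠ 0 ∧ ∃ s : Kˣ, T j = (s : K) •
      ![1, x (G.C j), x (G.C j) + x (G.D j)] := fun j =>
    STA_vec (T j 0) 1 (x (G.C j)) (x (G.C j) + x (G.D j)) (T0 j)
      (by ring)
      (by exact hT1 j)
      (by exact hT2 j)
  -- `W`
  have hW1 : ∀ j, W j 1 = W j 0 * x (G.A j) := fun j => by
    refine mul_left_cancel₀ (hA0 (G.A j)) ?_
    linear_combination -(w1 j) + W j 0 * hx (G.A j)
  have hW2 : ∀ j, W j 2 = W j 0 * (x (G.C j) + x (G.D j)) := fun j => by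
    refine mul_left_cancel₀ (fT j).1 ?_
    linear_combination -(w2 j) + W j 0 * hT2 j
  have fW : ∀ j, W j 0 ≠ 0 ∧ ∃ s : Kˣ, W j = (s : K) •
      ![1, x (G.A j), x (G.C j) + x (G.D j)] := fun j =>
    STA_vec (W j 0) 1 (x (G.A j)) (x (G.C j) + x (G.D j)) (W0 j)
      (by ring)
      (by exact hW1 j)
      (by exact hW2 j)
  refine ⟨x, ?_⟩
  rintro (i | ⟨v, i⟩ | ⟨j, i⟩)
  · fin_cases i
    · exact fD.2.imp fun s hs => hD.trans hs
    · exact fS.2.imp fun s hs => hS.trans hs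
  · fin_cases i
    · exact (fA v).2.imp fun s hs => (hA v).trans hs
    · exact (fE v).2.imp fun s hs => (hE v).trans hs
    · exact (fB v).2.imp fun s hs => (hB v).trans hs
    · exact (fR v).2.imp fun s hs => (hR v).trans hs
  · fin_cases i
    · exact (fT j).2.imp fun s hs => (hT j).trans hs
    · exact (fW j).2.imp fun s hs => (hW j).trans hs

/-- MODULE STA (M). Write `x = Sum.elim (std K) y`; all the equations are `D3 = 0` with known vectors, expand the
determinants (`Matrix.det_fin_three`):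
* `d1`, `d2` give `D = (0, t, t)`; `s1`, `s2` give `S = (t, t, 0)`; `t ≠ 0` since the vector is not `0`.
* for `v`: `a` gives `A = (A0, A1, 0)` and `NN.a` gives `A0 ≠ 0`; put `x_v = A1 / A0`, `A = A0 • (1, x_v, 0)`.
  `e1`: `E1 = E2`, `e2`: `E1 = x_v E0`, so `E = E0 • (1, x_v, x_v)`, `E0 ≠ 0`. `b1`: `B1 = 0`, `b2`: `B2 = x_v B0`,
  so `B = B0 • (1, 0, x_v)`. `r1`: `R1 = R0`, `r2`: `R2 = x_v R0`, so `R = R0 • (1, 1, x_v)`.
* for `j`: `t1`: `T1 = x_C T0`, `t2`: `T2 - T1 - x_D T0 = 0`, so `T = T0 • (1, x_C, x_C + x_D)`. `w1`: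
  `W1 = x_A W0`, `w2`: `W2 = (x_C + x_D) W0`, so `W = W0 • (1, x_A, x_C + x_D)`. -/
theorem std_form {V J K : Type} [Field K] (G : Gadget V J) (y : Qt V J → Fin 3 → K)
    (h : VC {t | CC G t} {t | NN t} (Sum.elim (std K) y)) :
    ∃ (s : Qt V J → Kˣ) (v : V → K), y = fun w => (s w : K) • pos G v w := by
  obtain ⟨v, hv⟩ := STA_sol G y h
  choose s hs using hv
  exact ⟨s, v, funext hs⟩

/-- MODULE STB (M). All conditions hold for these vectors, except that `one` says `v G.o = 1` and `eq j` says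
`v (G.A j) * v (G.B j) = v (G.C j) + v (G.D j)`: expand all determinants. -/
theorem std_iff {V J K : Type} [Field K] (G : Gadget V J) (s : Qt V J → Kˣ) (v : V → K) :
    VC {t | CC G t} {t | NN t} (Sum.elim (std K) fun w => (s w : K) • pos G v w) ↔
      v G.o = 1 ∧ ∀ j, v (G.A j) * v (G.B j) = v (G.C j) + v (G.D j) := by
  have s0 : std K 0 = ![1, 0, 0] := rfl
  have s1 : std K 1 = ![0, 1, 0] := rfl
  have s2 : std K 2 = ![0, 0, 1] := rfl
  have s3 : std K 3 = ![1, 1, 1] := rfl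
  have q0 : pos G v (Sum.inl 0) = ![0, 1, 1] := rfl
  have q1 : pos G v (Sum.inl 1) = ![1, 1, 0] := rfl
  have q2 : ∀ a, pos G v (Sum.inr (Sum.inl (a, 0))) = ![1, v a, 0] := fun _ => rfl
  have q3 : ∀ a, pos G v (Sum.inr (Sum.inl (a, 1))) = ![1, v a, v a] := fun _ => rfl
  have q4 : ∀ a, pos G v (Sum.inr (Sum.inl (a, 2))) = ![1, 0, v a] := fun _ => rfl
  have q5 : ∀ a, pos G v (Sum.inr (Sum.inl (a, 3))) = ![1, 1, v a] := fun _ => rfl
  have q6 : ∀ j, pos G v (Sum.inr (Sum.inr (j, 0))) =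
    ![1, v (G.C j), v (G.C j) + v (G.D j)] := fun _ => rfl
  have q7 : ∀ j, pos G v (Sum.inr (Sum.inr (j, 1))) =
    ![1, v (G.A j), v (G.C j) + v (G.D j)] := fun _ => rfl
  constructor
  · rintro ⟨-, hC, -⟩
    have h1 := hC _ (CC.one : CC G _)
    have h2 := fun j => hC _ (CC.eq j : CC G _)
    simp only [pO, pX, pY, pU, pD, pS, pA, pE, pB, pR, pT, pW, Sum.elim_inl, Sum.elim_inr, STA_D3,
      s0, s1, s2, s3, q0, q1, q2, q3, q4, q5, q6, q7, Pi.smul_apply, smul_eq_mul,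
      Matrix.cons_val_zero, Matrix.cons_val_one, Matrix.cons_val] at h1 h2
    refine ⟨?_, fun j => ?_⟩
    · refine mul_left_cancel₀ (s (Sum.inr (Sum.inl (G.o, 0)))).ne_zero ?_
      linear_combination -h1
    · refine mul_left_cancel₀ (s (Sum.inr (Sum.inl (G.B j, 3)))).ne_zero
        (mul_left_cancel₀ (s (Sum.inr (Sum.inr (j, 1)))).ne_zero ?_)
      linear_combination -(h2 j)
  · rintro ⟨h1, h2⟩
    refine ⟨?_, ?_, ?_⟩
    · have key : ∀ (c : Kˣ) (p : Fin 3 → K) (i : Fin 3), p i = 1 → (c : K) • p ≠ 0 := by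
        intro c p i hp h
        have e := congrFun h i
        rw [Pi.smul_apply, hp, smul_eq_mul, mul_one, Pi.zero_apply] at e
        exact c.ne_zero e
      have key' : ∀ (p : Fin 3 → K) (i : Fin 3), p i = 1 → p ≠ 0 := by
        intro p i hp h
        rw [h] at hp
        exact zero_ne_one hp
      rintro (i | i | ⟨a, i⟩ | ⟨j, i⟩)
      · fin_cases i
        · exact key' _ 0 rfl
        · exact key' _ 1 rfl
        · exact key' _ 2 rfl
        · exact key' _ 0 rfl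
      · fin_cases i
        · exact key _ _ 1 rfl
        · exact key _ _ 0 rfl
      · fin_cases i <;> exact key _ _ 0 rfl
      · fin_cases i <;> exact key _ _ 0 rfl
    · intro t ht
      cases (show CC G t from ht) with
      | eq j =>
        simp only [pO, pX, pY, pU, pD, pS, pA, pE, pB, pR, pT, pW, Sum.elim_inl, Sum.elim_inr,
          STA_D3, s0, s1, s2, s3, q0, q1, q2, q3, q4, q5, q6, q7, Pi.smul_apply, smul_eq_mul,
          Matrix.cons_val_zero, Matrix.cons_val_one, Matrix.cons_val]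
        linear_combination -((s (Sum.inr (Sum.inl (G.B j, 3))) : K) *
          (s (Sum.inr (Sum.inr (j, 1))) : K)) * h2 j
      | one =>
        simp only [pO, pX, pY, pU, pD, pS, pA, pE, pB, pR, pT, pW, Sum.elim_inl, Sum.elim_inr,
          STA_D3, s0, s1, s2, s3, q0, q1, q2, q3, q4, q5, q6, q7, Pi.smul_apply, smul_eq_mul,
          Matrix.cons_val_zero, Matrix.cons_val_one, Matrix.cons_val]
        linear_combination -((s (Sum.inr (Sum.inl (G.o, 0))) : K)) * h1
      | _ =>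
        simp only [pO, pX, pY, pU, pD, pS, pA, pE, pB, pR, pT, pW, Sum.elim_inl, Sum.elim_inr,
          STA_D3, s0, s1, s2, s3, q0, q1, q2, q3, q4, q5, q6, q7, Pi.smul_apply, smul_eq_mul,
          Matrix.cons_val_zero, Matrix.cons_val_one, Matrix.cons_val]
        ring
    · intro t ht
      cases (show NN t from ht) with
      | a a =>
        simp only [pO, pX, pY, pU, pD, pS, pA, pE, pB, pR, pT, pW, Sum.elim_inl, Sum.elim_inr,
          STA_D3, s0, s1, s2, s3, q0, q1, q2, q3, q4, q5, q6, q7, Pi.smul_apply, smul_eq_mul,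
          Matrix.cons_val_zero, Matrix.cons_val_one, Matrix.cons_val]
        intro h
        exact (s (Sum.inr (Sum.inl (a, 0)))).ne_zero (by linear_combination h)
      | _ =>
        simp only [pO, pX, pY, pU, pD, pS, pA, pE, pB, pR, pT, pW, Sum.elim_inl, Sum.elim_inr,
          STA_D3, s0, s1, s2, s3, Matrix.cons_val_zero, Matrix.cons_val_one, Matrix.cons_val]
        norm_num

/-- MODULE STC (S). Each `pos G v w` has a coordinate equal to `1` (which gives `s = s'`) and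
`pos G v (inr (inl (a, 0))) = (1, v a, 0)`. -/
theorem pos_inj {V J K : Type} [Field K] (G : Gadget V J) (s s' : Qt V J → Kˣ) (v v' : V → K)
    (h : (fun w => (s w : K) • pos G v w) = fun w => (s' w : K) • pos G v' w) : s = s' ∧ v = v' := by
  have hw : ∀ w i, (s w : K) * pos G v w i = (s' w : K) * pos G v' w i := fun w i =>
    congrFun (congrFun h w) i
  have key : ∀ w i, pos G v w i = 1 → pos G v' w i = 1 → s w = s' w := by
    intro w i e e'
    have e1 := hw w i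
    rw [e, e', mul_one, mul_one] at e1
    exact Units.ext e1
  have h1 : ∀ w, s w = s' w := by
    rintro (i | ⟨a, i⟩ | ⟨j, i⟩)
    · fin_cases i
      · exact key _ 1 rfl rfl
      · exact key _ 0 rfl rfl
    · fin_cases i <;> exact key _ 0 rfl rfl
    · fin_cases i <;> exact key _ 0 rfl rfl
  refine ⟨funext h1, funext fun a => ?_⟩
  have e := hw (Sum.inr (Sum.inl (a, 0))) 1
  rw [h1] at e
  exact mul_left_cancel₀ (s' _).ne_zero e

/-- MODULE STD (M). The map `(s, v) ↦ fun w => s w • pos G v w` is a bijection from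
`(Qt V J → Kˣ) × {v // v G.o = 1 ∧ ...}` to the set on the left (`std_form`, `std_iff`, `pos_inj`). -/
theorem std_count {V J K : Type} [Field K] [Finite K] [Fintype V] [Fintype J] (G : Gadget V J) :
    Nat.card {y : Qt V J → Fin 3 → K // VC {t | CC G t} {t | NN t} (Sum.elim (std K) y)} =
      (Nat.card K - 1) ^ Fintype.card (Qt V J) * gadCount G K := by
  let f : (Qt V J → Kˣ) × {v : V → K // v G.o = 1 ∧
      ∀ j, v (G.A j) * v (G.B j) = v (G.C j) + v (G.D j)} →
      {y : Qt V J → Fin 3 → K // VC {t | CC G t} {t | NN t} (Sum.elim (std K) y)} :=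
    fun x => ⟨fun w => (x.1 w : K) • pos G x.2.1 w, (std_iff G x.1 x.2.1).2 x.2.2⟩
  have hf : Function.Bijective f := by
    constructor
    · rintro ⟨s, v, hv⟩ ⟨s', v', hv'⟩ h
      obtain ⟨e1, e2⟩ := pos_inj G s s' v v' (congrArg Subtype.val h)
      subst e1
      subst e2
      rfl
    · rintro ⟨y, hy⟩
      obtain ⟨s, v, rfl⟩ := std_form G y hy
      exact ⟨(s, ⟨v, (std_iff G s v).1 hy⟩), rfl⟩
  rw [← Nat.card_congr (Equiv.ofBijective f hf), Nat.card_prod, gadCount, Nat.card_fun,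
    Nat.card_units, Nat.card_eq_fintype_card (α := Qt V J)]

end Pool.Agent.Ptl
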