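import Pool.Agent.Ptl.Vec
import Pool.Agent.Ptl.Std

/-! # The number of configurations of a system of equations -/

set_option autoImplicit false

open scoped BigOperators LinearAlgebra.Projectivization Matrix

namespace Pool.Agent.Ptl

open Pool.Agent.KG Pool.Agent.HGC

private theorem PGD_frm {V J : Type} : (frm : Set (Pt V J × Pt V J × Pt V J)) ⊆ {t | NN t} := by
  rintro t (rfl | rfl | rfl | rfl)
  · exact NN.f1
  · exact NN.f2
  · exact NN.f3
  · exact NN.f4

/-- MODULE PGD (S). `vec_count` for `W = Pt V J`, `|W| = 4 + |Qt V J|`, `frame_count` (`frm ⊆ {t | NN t}` by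
`f1, ..., f4`) and `std_count`; cancel `(q - 1) ^ (3 + |Qt V J|)`. -/
theorem pc_gad {V J K : Type} [Field K] [Finite K] [Fintype V] [Fintype J] (G : Gadget V J) :
    (Nat.card K - 1) * pc (inc K) {t | CC G t} {t | NN t} = Nat.card (GL (Fin 3) K) * gadCount G K := by
  have e1 := vec_count (K := K) (W := Pt V J) {t | CC G t} {t | NN t}
  have e2 := frame_count (K := K) (Q := Qt V J) {t | CC G t} {t | NN t} PGD_frm
  have e3 := std_count (K := K) G
  have hq : 1 < Nat.card K := Finite.one_lt_card
  have hpos : 0 < (Nat.card K - 1) ^ (3 + Fintype.card (Qt V J)) := Nat.pow_pos (by omega)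
  have hc : Fintype.card (Pt V J) = 4 + Fintype.card (Qt V J) := by
    rw [Fintype.card_sum, Fintype.card_fin]
  rw [hc] at e1
  rw [e3] at e2
  have e4 := e1.symm.trans e2
  refine Nat.eq_of_mul_eq_mul_left hpos ?_
  calc (Nat.card K - 1) ^ (3 + Fintype.card (Qt V J)) *
        ((Nat.card K - 1) * pc (inc K) {t | CC G t} {t | NN t})
      = (Nat.card K - 1) ^ (4 + Fintype.card (Qt V J)) * pc (inc K) {t | CC G t} {t | NN t} := by ring
    _ = _ := by rw [e4]; ring

end Pool.Agent.Ptl
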