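import Pool.Agent.Ptl.Pl
import Pool.Agent.KGU.USp

/-! # Collinear and non-collinear triples -/

set_option autoImplicit false

open scoped BigOperators LinearAlgebra.Projectivization

namespace Pool.Agent.Ptl

open Pool.Agent.KG Pool.Agent.HGC Pool.Agent.KGU

private theorem LNT_two {P L : Type} {I : P → L → Prop} {q : ℕ} (hP : Plane I q) {p p' : P}
    (Q : L → Prop) (hQ : ∀ l, Q l → I p l ∧ I p' l) (hne : p ≠ p') (h : ∃ l, Q l) :
    Nat.card {l // Q l} = 1 := by
  have h1 := hP.line p p' hne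
  rw [Nat.card_eq_one_iff_unique] at h1 ⊢
  obtain ⟨h1, -⟩ := h1
  refine ⟨⟨fun x y => ?_⟩, ⟨⟨h.choose, h.choose_spec⟩⟩⟩
  have e : (⟨x.1, hQ _ x.2⟩ : {l // I p l ∧ I p' l}) = ⟨y.1, hQ _ y.2⟩ :=
    @Subsingleton.elim _ h1 _ _
  exact Subtype.ext (congrArg (fun z : {l // I p l ∧ I p' l} => z.1) e)

/-- MODULE LNT (S). If the three points are equal there are `q + 1` lines, if not, at most one line by
`Plane.line`. -/
theorem lines_three {P L : Type} {I : P → L → Prop} {q : ℕ} (hP : Plane I q) (a b c : P) (h : Col I a b c) :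
    Nat.card {l // I a l ∧ I b l ∧ I c l} = 1 ∨ Nat.card {l // I a l ∧ I b l ∧ I c l} = q + 1 := by
  by_cases hab : a = b
  · by_cases hac : a = c
    · subst hab
      subst hac
      right
      rw [← hP.lines a]
      exact Nat.card_congr (Equiv.subtypeEquivRight fun l => by tauto)
    · left
      exact LNT_two hP (fun l => I a l ∧ I b l ∧ I c l) (fun l hl => ⟨hl.1, hl.2.2⟩) hac h
  · left
    exact LNT_two hP (fun l => I a l ∧ I b l ∧ I c l) (fun l hl => ⟨hl.1, hl.2.1⟩) hab h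

/-- The solutions. -/
private abbrev WNO_X {P L W H : Type} (I : P → L → Prop) (C N : Set (W × W × W)) (R : W → H → Prop) :
    Type :=
  {x : (W → P) × (H → L) // (∀ t ∈ C, Col I (x.1 t.1) (x.1 t.2.1) (x.1 t.2.2)) ∧
    (∀ t ∈ N, ¬ Col I (x.1 t.1) (x.1 t.2.1) (x.1 t.2.2)) ∧ ∀ a b, R a b → I (x.1 a) (x.2 b)}

/-- A solution for `addL R t` is a solution for `R` and a line. -/
private def WNO_eq {P L W H : Type} (I : P → L → Prop) (C N : Set (W × W × W)) (R : W → H → Prop)
    (t : W × W × W) : WNO_X I C N (addL R t) ≃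
      Σ s : WNO_X I C N R, {l // I (s.1.1 t.1) l ∧ I (s.1.1 t.2.1) l ∧ I (s.1.1 t.2.2) l} where
  toFun x := ⟨⟨(x.1.1, fun h => x.1.2 (some h)), x.2.1, x.2.2.1, fun a b hab =>
      x.2.2.2 a (some b) hab⟩,
    ⟨x.1.2 none, x.2.2.2 _ none (Or.inl rfl), x.2.2.2 _ none (Or.inr (Or.inl rfl)),
      x.2.2.2 _ none (Or.inr (Or.inr rfl))⟩⟩
  invFun z := ⟨(z.1.1.1, fun o => o.elim z.2.1 z.1.1.2), z.1.2.1, z.1.2.2.1, by
    rintro a (_ | b) hab
    · rcases hab with rfl | rfl | rfl
      · exact z.2.2.1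
      · exact z.2.2.2.1
      · exact z.2.2.2.2
    · exact z.1.2.2.2 a b hab⟩
  left_inv x := by
    refine Subtype.ext (Prod.ext rfl ?_)
    funext o
    cases o <;> rfl
  right_inv z := by
    rfl

private theorem WNO_sum {P L W H : Type} [Finite P] [Finite L] [Finite W] [Finite H]
    (I : P → L → Prop) (C N : Set (W × W × W)) (R : W → H → Prop) (t : W × W × W)
    (f : (W → P) → ℕ) :
    ∑ᶠ x : WNO_X I C N (addL R t), f x.1.1 = ∑ᶠ s : WNO_X I C N R,
      Nat.card {l // I (s.1.1 t.1) l ∧ I (s.1.1 t.2.1) l ∧ I (s.1.1 t.2.2) l} * f s.1.1 := by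
  classical
  have f1 : Finite (WNO_X I C N R) := Subtype.finite
  have f2 : Finite (WNO_X I C N (addL R t)) := Subtype.finite
  have := Fintype.ofFinite (WNO_X I C N R)
  have := Fintype.ofFinite (WNO_X I C N (addL R t))
  have := fun s : WNO_X I C N R => Fintype.ofFinite
    {l // I (s.1.1 t.1) l ∧ I (s.1.1 t.2.1) l ∧ I (s.1.1 t.2.2) l}
  rw [finsum_eq_sum_of_fintype, finsum_eq_sum_of_fintype]
  refine (Fintype.sum_equiv (WNO_eq I C N R t) _ (fun z => f z.1.1.1) (fun x => rfl)).trans ?_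
  rw [Fintype.sum_sigma]
  refine Finset.sum_congr rfl fun s _ => ?_
  refine (Finset.sum_const (f s.1.1)).trans ?_
  rw [Finset.card_univ, Nat.card_eq_fintype_card, smul_eq_mul]

/-- MODULE WNO (M). For each `(x, y)` counted by `wc I C N R` let `k` be the number of lines through the three points
of `t`. The four terms are sums over these `(x, y)` of `k ^ 2`, `q + 1`, `(q + 2) k` and `(q + 1) [k = 0]`. By
`lines_three` `k` is `0` (exactly if the points are not collinear), `1` or `q + 1`, and in the three cases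
`k ^ 2 + (q + 1) = (q + 2) k + (q + 1) [k = 0]`. -/
theorem wc_non {P L W H : Type} [Finite W] [Finite H] {I : P → L → Prop} {q : ℕ} (hP : Plane I q)
    (C N : Set (W × W × W)) (R : W → H → Prop) (t : W × W × W) :
    wc I C N (addL (addL R t) t) + (q + 1) * wc I C N R =
      (q + 2) * wc I C N (addL R t) + (q + 1) * wc I C (insert t N) R := by
  classical
  have fp := hP.fp
  have fl := hP.fl
  have f1 : Finite (WNO_X I C N R) := Subtype.finite
  have := Fintype.ofFinite (WNO_X I C N R)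
  have card1 : ∀ (H' : Type) [Finite H'] (R' : W → H' → Prop), wc I C N R' =
      ∑ᶠ x : WNO_X I C N R', 1 := by
    intro H' _ R'
    have f1 : Finite (WNO_X I C N R') := Subtype.finite
    have := Fintype.ofFinite (WNO_X I C N R')
    rw [finsum_eq_sum_of_fintype, Finset.sum_const, Finset.card_univ, smul_eq_mul, mul_one,
      ← Nat.card_eq_fintype_card]
    rfl
  set k : WNO_X I C N R → ℕ := fun s =>
    Nat.card {l // I (s.1.1 t.1) l ∧ I (s.1.1 t.2.1) l ∧ I (s.1.1 t.2.2) l} with hk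
  have e0 : wc I C N R = ∑ s : WNO_X I C N R, 1 := by
    rw [card1 H R, finsum_eq_sum_of_fintype]
  have e1 : wc I C N (addL R t) = ∑ s : WNO_X I C N R, k s := by
    rw [card1 (Option H) (addL R t), WNO_sum I C N R t (fun _ => 1), finsum_eq_sum_of_fintype]
    exact Finset.sum_congr rfl fun s _ => mul_one _
  have e2 : wc I C N (addL (addL R t) t) = ∑ s : WNO_X I C N R, k s * k s := by
    rw [card1 (Option (Option H)) (addL (addL R t) t), WNO_sum I C N (addL R t) t (fun _ => 1)]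
    simp only [mul_one]
    rw [WNO_sum I C N R t (fun x => Nat.card {l // I (x t.1) l ∧ I (x t.2.1) l ∧ I (x t.2.2) l}),
      finsum_eq_sum_of_fintype]
  have hcol : ∀ s : WNO_X I C N R, Col I (s.1.1 t.1) (s.1.1 t.2.1) (s.1.1 t.2.2) ↔ k s ≠ 0 := by
    intro s
    rw [hk, Nat.card_ne_zero]
    constructor
    · rintro ⟨l, hl⟩
      exact ⟨⟨⟨l, hl⟩⟩, Subtype.finite⟩
    · rintro ⟨⟨l⟩, -⟩
      exact ⟨l.1, l.2⟩
  have e3 : wc I C (insert t N) R = ∑ s : WNO_X I C N R, if k s = 0 then 1 else 0 := by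
    rw [← Finset.card_filter, ← Fintype.card_subtype, ← Nat.card_eq_fintype_card]
    refine Nat.card_congr ⟨fun x => ⟨⟨x.1, x.2.1, fun t' ht' => x.2.2.1 t' (Set.mem_insert_of_mem _ ht'),
      x.2.2.2⟩, ?_⟩, fun z => ⟨z.1.1, z.1.2.1, ?_, z.1.2.2.2⟩, fun _ => rfl, fun _ => rfl⟩
    · by_contra hne
      exact x.2.2.1 t (Set.mem_insert _ _) ((hcol ⟨x.1, _⟩).2 hne)
    · rintro t' (rfl | ht')
      · exact fun hc => (hcol z.1).1 hc z.2
      · exact z.1.2.2.1 t' ht'
  rw [e0, e1, e2, e3, Finset.mul_sum, Finset.mul_sum, Finset.mul_sum, ← Finset.sum_add_distrib,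
    ← Finset.sum_add_distrib]
  refine Finset.sum_congr rfl fun s _ => ?_
  by_cases h0 : k s = 0
  · rw [h0, if_pos rfl]
    ring
  · rw [if_neg h0]
    rcases lines_three hP _ _ _ ((hcol s).2 h0) with h1 | h1
    · have : k s = 1 := h1
      rw [this]
      ring
    · have : k s = q + 1 := h1
      rw [this]
      ring

/-- MODULE WCO (S). The solutions with `t` collinear and the solutions with `t` not collinear. -/
theorem wc_col {P L W H : Type} [Finite W] [Finite H] [Finite P] [Finite L] (I : P → L → Prop)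
    (C N : Set (W × W × W)) (R : W → H → Prop) (t : W × W × W) :
    wc I (insert t C) N R + wc I C (insert t N) R = wc I C N R := by
  classical
  have f1 : Finite {x : (W → P) × (H → L) // (∀ t ∈ C, Col I (x.1 t.1) (x.1 t.2.1) (x.1 t.2.2)) ∧
    (∀ t ∈ N, ¬ Col I (x.1 t.1) (x.1 t.2.1) (x.1 t.2.2)) ∧ ∀ a b, R a b → I (x.1 a) (x.2 b)} :=
    Subtype.finite
  rw [wc, wc, wc, ← Nat.card_congr (Equiv.sumCompl (fun x : {x : (W → P) × (H → L) //
    (∀ t ∈ C, Col I (x.1 t.1) (x.1 t.2.1) (x.1 t.2.2)) ∧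
    (∀ t ∈ N, ¬ Col I (x.1 t.1) (x.1 t.2.1) (x.1 t.2.2)) ∧ ∀ a b, R a b → I (x.1 a) (x.2 b)} =>
    Col I (x.1.1 t.1) (x.1.1 t.2.1) (x.1.1 t.2.2))), Nat.card_sum]
  congr 1
  · refine Nat.card_congr ⟨fun x => ⟨⟨x.1, fun t' ht' => x.2.1 t' (Set.mem_insert_of_mem _ ht'),
      x.2.2.1, x.2.2.2⟩, x.2.1 t (Set.mem_insert _ _)⟩, fun z => ⟨z.1.1, ?_, z.1.2.2.1, z.1.2.2.2⟩,
      fun _ => rfl, fun _ => rfl⟩
    rintro t' (rfl | ht')
    · exact z.2
    · exact z.1.2.1 t' ht'
  · refine Nat.card_congr ⟨fun x => ⟨⟨x.1, x.2.1, fun t' ht' => x.2.2.1 t' (Set.mem_insert_of_mem _ ht'),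
      x.2.2.2⟩, x.2.2.1 t (Set.mem_insert _ _)⟩, fun z => ⟨z.1.1, z.1.2.1, ?_, z.1.2.2.2⟩,
      fun _ => rfl, fun _ => rfl⟩
    rintro t' (rfl | ht')
    · exact z.2
    · exact z.1.2.2.1 t' ht'

/-- MODULE WCE (S). `wc I ∅ ∅ R = hom I R`. -/
theorem wc_empty {P L W H : Type} (I : P → L → Prop) (R : W → H → Prop) : wc I ∅ ∅ R = hom I R := by
  exact Nat.card_congr (Equiv.subtypeEquivRight fun x => by simp)

private theorem WCI_N {𝔅 : Set (FinField → ℤ)}
    (h : ∀ (A B : Type) [Fintype A] [Fintype B] (R : A → B → Prop), Sp 𝔅 (hc R))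
    {W : Type} [Fintype W] (N : Set (W × W × W)) :
    ∀ (H : Type) [Fintype H] (R : W → H → Prop), Sp 𝔅 fun F => (wc (inc F.K) ∅ N R : ℤ) := by
  refine Set.Finite.induction_on N (Set.toFinite N) ?_ ?_
  · intro H _ R
    exact sp_congr (h W H R) fun F => by rw [wc_empty]; rfl
  · intro t N ht hN ih H _ R
    refine Sp.div (Polynomial.X + Polynomial.C 1) (Polynomial.monic_X_add_C 1) ?_
    refine sp_congr (sp_sub (Sp.add (ih (Option (Option H)) (addL (addL R t) t))
      (Sp.mulp (Polynomial.X + Polynomial.C 1) (ih H R)))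
      (Sp.mulp (Polynomial.X + Polynomial.C 2) (ih (Option H) (addL R t)))) fun F => ?_
    have e := wc_non (plane_inc F.K) ∅ N R t
    have e' := congrArg (fun n : ℕ => (n : ℤ)) e
    push_cast at e'
    simp only [Polynomial.eval_add, Polynomial.eval_X, Polynomial.eval_C]
    rw [show F.q = (Nat.card F.K : ℤ) from rfl]
    linear_combination e'

/-- MODULE WCI (M). All sets `C`, `N` are finite (`Set.Finite.induction_on` or a similar induction). First, by
induction on `N`: for all `H`, `R` the function with `C = ∅` is in the class: `wc_empty` and `h`; step by `wc_non`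
(with `plane_inc`): `(q + 1) * wc ∅ (insert t N) R` is a combination with polynomial coefficients of values for
`N` (other `H`, `R`), divide by `X + 1` (`Sp.div`). Then by induction on `C` for all `N`, `H`, `R`: `wc_col`,
`sp_sub`. -/
theorem wc_mem {𝔅 : Set (FinField → ℤ)}
    (h : ∀ (A B : Type) [Fintype A] [Fintype B] (R : A → B → Prop), Sp 𝔅 (hc R))
    {W H : Type} [Fintype W] [Fintype H] (C N : Set (W × W × W)) (R : W → H → Prop) :
    Sp 𝔅 fun F => (wc (inc F.K) C N R : ℤ) := by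
  revert N
  refine Set.Finite.induction_on C (Set.toFinite C) ?_ ?_
  · intro N
    exact WCI_N h N H R
  · intro t C ht hC ih N
    refine sp_congr (sp_sub (ih N) (ih (insert t N))) fun F => ?_
    have fp := (plane_inc F.K).fp
    have e := wc_col (inc F.K) C N R t
    have e' := congrArg (fun n : ℕ => (n : ℤ)) e
    push_cast at e'
    linear_combination -e'

/-- MODULE PCM (S). `pc I C N` is `wc I C N R` for `H = Empty`. -/
theorem pc_mem {𝔅 : Set (FinField → ℤ)}
    (h : ∀ (A B : Type) [Fintype A] [Fintype B] (R : A → B → Prop), Sp 𝔅 (hc R))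
    {W : Type} [Fintype W] (C N : Set (W × W × W)) : Sp 𝔅 fun F => (pc (inc F.K) C N : ℤ) := by
  refine sp_congr (wc_mem h C N (fun (_ : W) (e : Empty) => e.elim)) fun F => ?_
  refine congrArg (fun n : ℕ => (n : ℤ)) (Nat.card_congr ⟨fun x => ⟨x.1.1, x.2.1, x.2.2.1⟩,
    fun z => ⟨(z.1, fun e => e.elim), z.2.1, z.2.2, fun _ e => e.elim⟩, fun x => ?_, fun _ => rfl⟩)
  refine Subtype.ext (Prod.ext rfl (funext fun e => e.elim))

end Pool.Agent.Ptl
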