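import Pool.Agent.Ptl.Pl
import Pool.Agent.KGU.USp

/-! # Pending points: three points on every line -/

set_option autoImplicit false

open scoped BigOperators LinearAlgebra.Projectivization

namespace Pool.Agent.Ptl

open Pool.Agent.KG Pool.Agent.HGC Pool.Agent.KGU

/-- MODULE PNC (M). For given `(x, y)` (a solution of `R`) every new point `⟨b, i⟩` is one of the `q + 1` points of the
line `y b`, independently. -/
theorem hom_pend {A B P L : Type} [Fintype A] [Fintype B] {I : P → L → Prop} {q : ℕ} (hP : Plane I q)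
    (R : A → B → Prop) (m : B → ℕ) : hom I (pend R m) = (q + 1) ^ (∑ b, m b) * hom I R := by
  classical
  have hfP := hP.fp
  have hfL := hP.fl
  let Z := {z : (A → P) × (B → L) // ∀ a b, R a b → I (z.1 a) (z.2 b)}
  let e : {x : ((A ⊕ (Σ b : B, Fin (m b))) → P) × (B → L) // ∀ a b, pend R m a b → I (x.1 a) (x.2 b)} ≃
      Σ z : Z, ∀ s : (Σ b : B, Fin (m b)), {p // I p (z.1.2 s.1)} :=
    { toFun := fun x => ⟨⟨(fun a => x.1.1 (Sum.inl a), x.1.2), fun a b h => x.2 (Sum.inl a) b h⟩,
        fun s => ⟨x.1.1 (Sum.inr s), x.2 (Sum.inr s) s.1 rfl⟩⟩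
      invFun := fun z => ⟨(Sum.elim z.1.1.1 (fun s => (z.2 s).1), z.1.1.2), by
        rintro (a | s) b h
        · exact z.1.2 a b h
        · have h1 : s.1 = b := h
          subst h1
          exact (z.2 s).2⟩
      left_inv := by
        rintro ⟨⟨x, y⟩, h⟩
        apply Subtype.ext
        refine Prod.ext ?_ rfl
        funext a
        rcases a with a | s <;> rfl
      right_inv := by
        rintro ⟨⟨⟨x, y⟩, h⟩, w⟩
        rfl }
  have hZ : Fintype Z := Fintype.ofFinite Z
  rw [hom, Nat.card_congr e, Nat.card_sigma]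
  have h1 : ∀ z : Z, Nat.card (∀ s : (Σ b : B, Fin (m b)), {p // I p (z.1.2 s.1)}) =
      (q + 1) ^ (∑ b, m b) := by
    intro z
    rw [Nat.card_pi, Finset.prod_congr rfl fun s _ => hP.points (z.1.2 s.1), Finset.prod_const,
      Finset.card_univ, Fintype.card_sigma]
    simp
  rw [Finset.sum_congr rfl fun z _ => h1 z, Finset.sum_const, Finset.card_univ, smul_eq_mul,
    mul_comm, ← Nat.card_eq_fintype_card]
  rfl

/-- MODULE PNB (S). The points on `b` are those of `R` and `m b` new points. -/
theorem dB_pend {A B : Type} [Finite A] [Finite B] (R : A → B → Prop) (m : B → ℕ) (b : B) :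
    dB (pend R m) b = dB R b + m b := by
  classical
  have h1 : {a | pend R m a b} = Sum.inl '' {a | R a b} ∪ Sum.inr '' {s : (Σ b : B, Fin (m b)) | s.1 = b} := by
    ext x
    rcases x with a | s
    · simp [pend]
    · simp [pend]
  have h2 : {s : (Σ b : B, Fin (m b)) | s.1 = b} = Set.range fun i : Fin (m b) => (⟨b, i⟩ : Σ b : B, Fin (m b)) := by
    ext ⟨c, i⟩
    constructor
    · intro h
      have h3 : c = b := h
      subst h3
      exact ⟨i, rfl⟩
    · rintro ⟨j, hj⟩
      exact (congrArg Sigma.fst hj).symm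
  have h3 : {s : (Σ b : B, Fin (m b)) | s.1 = b}.ncard = m b := by
    rw [h2, ← Set.image_univ, Set.ncard_image_of_injective _ (fun i j h => by simpa using h), Set.ncard_univ,
      Nat.card_eq_fintype_card, Fintype.card_fin]
  rw [dB, h1, Set.ncard_union_eq ?_ (Set.toFinite _) (Set.toFinite _),
    Set.ncard_image_of_injective _ Sum.inl_injective, Set.ncard_image_of_injective _ Sum.inr_injective, h3]
  · rfl
  · rw [Set.disjoint_left]
    rintro _ ⟨a, _, rfl⟩ ⟨s, _, h⟩
    cases h

/-- MODULE PNA (S). An old point is on the same lines as before, a new point is on one line. -/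
theorem dA_pend {A B : Type} [Finite A] [Finite B] (R : A → B → Prop) (m : B → ℕ) (h : ∀ a, dA R a ≤ 3)
    (a : A ⊕ (Σ b : B, Fin (m b))) : dA (pend R m) a ≤ 3 := by
  rcases a with a | s
  · exact h a
  · have h1 : {b | pend R m (Sum.inr s) b} = {s.1} := by
      ext b
      exact eq_comm
    rw [dA, h1, Set.ncard_singleton]
    norm_num

/-- MODULE PNS (M). For a set `S` of lines the number of incidences and the number of points on lines of `S` grow by
the same number `∑_(b ∈ S) m b`. -/
theorem sparse_pend {A B : Type} [Fintype A] [Fintype B] (g : ℕ) (R : A → B → Prop) (m : B → ℕ)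
    (h : Sparse g R) : Sparse g (pend R m) := by
  classical
  intro S hS hg
  have h0 := h S hS hg
  let N : Set (Σ b : B, Fin (m b)) := {s | s.1 ∈ S}
  have h1 : {x : (A ⊕ (Σ b : B, Fin (m b))) × B | x.2 ∈ S ∧ pend R m x.1 x.2} =
      (fun x : A × B => ((Sum.inl x.1 : A ⊕ (Σ b : B, Fin (m b))), x.2)) '' {x : A × B | x.2 ∈ S ∧ R x.1 x.2} ∪
      (fun s : (Σ b : B, Fin (m b)) => ((Sum.inr s : A ⊕ (Σ b : B, Fin (m b))), s.1)) '' N := by
    ext ⟨x, b⟩
    rcases x with a | s
    · simp [pend, N]
    · constructor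
      · rintro ⟨h1, h2⟩
        have h3 : s.1 = b := h2
        subst h3
        exact Or.inr ⟨s, h1, rfl⟩
      · rintro (⟨y, _, hy⟩ | ⟨t, ht, hy⟩)
        · cases hy
        · have e1 : t = s := Sum.inr_injective (congrArg Prod.fst hy)
          have e2 : t.1 = b := congrArg Prod.snd hy
          subst e1
          subst e2
          exact ⟨ht, rfl⟩
  have h2 : {a | ∃ b ∈ S, pend R m a b} = Sum.inl '' {a | ∃ b ∈ S, R a b} ∪ Sum.inr '' N := by
    ext x
    rcases x with a | s
    · simp [pend, N]
    · constructor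
      · rintro ⟨b, h1, h2⟩
        have h3 : s.1 = b := h2
        subst h3
        exact Or.inr ⟨s, h1, rfl⟩
      · rintro (⟨y, _, hy⟩ | ⟨t, ht, hy⟩)
        · cases hy
        · have e1 : t = s := Sum.inr_injective hy
          subst e1
          exact ⟨_, ht, rfl⟩
  rw [h1, h2, Set.ncard_union_eq ?_ (Set.toFinite _) (Set.toFinite _),
    Set.ncard_union_eq ?_ (Set.toFinite _) (Set.toFinite _),
    Set.ncard_image_of_injective _ Sum.inl_injective, Set.ncard_image_of_injective _ Sum.inr_injective,
    Set.ncard_image_of_injective, Set.ncard_image_of_injective]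
  · omega
  · intro s t hst
    exact Sum.inr_injective (congrArg Prod.fst hst)
  · rintro ⟨a, b⟩ ⟨a', b'⟩ hst
    have e1 : a = a' := Sum.inl_injective (congrArg Prod.fst hst)
    have e2 : b = b' := congrArg Prod.snd hst
    rw [e1, e2]
  · rw [Set.disjoint_left]
    rintro _ ⟨a, _, rfl⟩ ⟨s, _, h⟩
    cases h
  · rw [Set.disjoint_left]
    rintro _ ⟨a, _, rfl⟩ ⟨s, _, h⟩
    cases h

/-- MODULE CNV (M). Let `e : A ≃ Fin n` and let `T` be the image of `b ↦ {e a | R a b}` (`Finset.image` or
`toFinset`, classical). The map is injective: for `b ≠ b'` `Sparse (g + 2) R` for `S = {b, b'}` gives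
`6 + 1 ≤ 2 + N`, so the two lines have at least `5` points together. `deg`: the triples with `e a` are the images of
the lines through `a`. `sparse`: a subset `S` of `T` is the image of a set `S'` of lines with the same number `k`
of elements, and there are `3 k` incidences, so `3 k + 1 ≤ k + N`. The count: reindex the points by `e` and the
lines by the bijection `B ≃ T` (`Nat.card_congr`). -/
theorem exists_ts (g : ℕ) {A B : Type} [Fintype A] [Fintype B] (R : A → B → Prop) (h3 : ∀ b, dB R b = 3)
    (hd : ∀ a, dA R a ≤ 3) (hs : Sparse (g + 2) R) :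
    ∃ C : TripleSystem g, ∀ (K : Type) [Field K], C.cnt K = hom (inc K) R := by
  classical
  obtain ⟨n, ⟨e⟩⟩ : ∃ n : ℕ, Nonempty (A ≃ Fin n) := ⟨_, ⟨Fintype.equivFin A⟩⟩
  let tri : B → Finset (Fin n) := fun b => Finset.univ.filter fun i => R (e.symm i) b
  have hmem : ∀ b i, i ∈ tri b ↔ R (e.symm i) b := fun b i => by simp [tri]
  have hcard : ∀ b, (tri b).card = 3 := by
    intro b
    rw [← h3 b, dB, ← Set.ncard_coe_finset, ← Set.ncard_image_of_injective _ e.injective]
    congr 1
    ext i
    rw [Finset.mem_coe, hmem]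
    constructor
    · intro h
      exact ⟨e.symm i, h, e.apply_symm_apply i⟩
    · rintro ⟨a, ha, rfl⟩
      rw [e.symm_apply_apply]
      exact ha
  have hinj : Function.Injective tri := by
    intro b b' hb
    by_contra hne
    have h1 : ∀ a, R a b ↔ R a b' := by
      intro a
      have h2 := hmem b (e a)
      have h4 := hmem b' (e a)
      rw [e.symm_apply_apply] at h2 h4
      rw [← h2, ← h4, hb]
    have h2 := hs {b, b'} ⟨b, Or.inl rfl⟩ (by
      rw [Set.ncard_pair hne]
      omega)
    have h4 : {a | ∃ c ∈ ({b, b'} : Set B), R a c} = {a | R a b} := by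
      ext a
      constructor
      · rintro ⟨c, rfl | rfl, h⟩
        · exact h
        · exact (h1 a).2 h
      · intro h
        exact ⟨b, Or.inl rfl, h⟩
    have h5 : {x : A × B | x.2 ∈ ({b, b'} : Set B) ∧ R x.1 x.2} = {a | R a b} ×ˢ {b, b'} := by
      ext ⟨a, c⟩
      constructor
      · rintro ⟨rfl | rfl, h⟩
        · exact ⟨h, Or.inl rfl⟩
        · exact ⟨(h1 a).2 h, Or.inr rfl⟩
      · rintro ⟨h, rfl | rfl⟩
        · exact ⟨Or.inl rfl, h⟩
        · exact ⟨Or.inr rfl, (h1 a).1 h⟩
    have h6 : {a | R a b}.ncard = 3 := h3 b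
    rw [h4, h5, Set.ncard_prod, Set.ncard_pair hne, h6] at h2
    omega
  have hsub : ∀ S : Finset (Finset (Fin n)), S ⊆ Finset.univ.image tri → ∃ S' : Finset B, S'.image tri = S := by
    intro S hS
    refine ⟨Finset.univ.filter fun b => tri b ∈ S, ?_⟩
    ext t
    rw [Finset.mem_image]
    constructor
    · rintro ⟨b, hb, rfl⟩
      exact (Finset.mem_filter.1 hb).2
    · intro ht
      obtain ⟨b, -, rfl⟩ := Finset.mem_image.1 (hS ht)
      exact ⟨b, Finset.mem_filter.2 ⟨Finset.mem_univ _, ht⟩, rfl⟩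
  refine ⟨⟨n, Finset.univ.image tri, ?_, ?_, ?_⟩, ?_⟩
  · intro t ht
    obtain ⟨b, -, rfl⟩ := Finset.mem_image.1 ht
    exact hcard b
  · intro i
    have h1 : (Finset.univ.image tri).filter (fun t => i ∈ t) ⊆
        (Finset.univ.filter fun b => R (e.symm i) b).image tri := by
      intro t ht
      rw [Finset.mem_filter] at ht
      obtain ⟨b, -, rfl⟩ := Finset.mem_image.1 ht.1
      exact Finset.mem_image_of_mem _ (Finset.mem_filter.2 ⟨Finset.mem_univ _, (hmem b i).1 ht.2⟩)
    refine (Finset.card_le_card h1).trans (Finset.card_image_le.trans ?_)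
    have h2 := hd (e.symm i)
    rw [dA, ← Finset.coe_filter_univ, Set.ncard_coe_finset] at h2
    exact h2
  · intro S hS hne hg
    obtain ⟨S', rfl⟩ := hsub S hS
    have hc : (S'.image tri).card = S'.card := Finset.card_image_of_injective _ hinj
    rw [hc] at hg ⊢
    have hne' : S'.Nonempty := Finset.image_nonempty.1 hne
    have h1 := hs (S' : Set B) (by exact_mod_cast hne') (by rw [Set.ncard_coe_finset]; omega)
    have h2 : {x : A × B | x.2 ∈ (S' : Set B) ∧ R x.1 x.2}.ncard = 3 * S'.card := by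
      have h4 : {x : A × B | x.2 ∈ (S' : Set B) ∧ R x.1 x.2} =
          ((S'.sigma fun b => Finset.univ.filter fun a => R a b).image
            (fun y : (Σ _ : B, A) => (y.2, y.1)) : Set (A × B)) := by
        ext ⟨a, b⟩
        simp only [Finset.coe_image, Set.mem_image, Finset.mem_coe, Finset.mem_sigma, Finset.mem_filter,
          Finset.mem_univ, true_and, Set.mem_ofPred_eq]
        constructor
        · rintro ⟨h5, h6⟩
          exact ⟨⟨b, a⟩, ⟨h5, h6⟩, rfl⟩
        · rintro ⟨⟨b', a'⟩, ⟨h5, h6⟩, h7⟩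
          have e1 : a' = a := congrArg Prod.fst h7
          have e2 : b' = b := congrArg Prod.snd h7
          subst e1
          subst e2
          exact ⟨h5, h6⟩
      rw [h4, Set.ncard_coe_finset, Finset.card_image_of_injective, Finset.card_sigma,
        Finset.sum_congr rfl (g := fun _ => 3), Finset.sum_const, smul_eq_mul, mul_comm]
      · intro b _
        have h5 := h3 b
        rw [dB, ← Finset.coe_filter_univ, Set.ncard_coe_finset] at h5
        exact h5
      · rintro ⟨b, a⟩ ⟨b', a'⟩ h7
        have e1 : a = a' := congrArg Prod.fst h7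
        have e2 : b = b' := congrArg Prod.snd h7
        subst e1
        subst e2
        rfl
    have h4 : {a | ∃ b ∈ (S' : Set B), R a b}.ncard = ((S'.image tri).biUnion id).card := by
      rw [← Set.ncard_image_of_injective _ e.injective, ← Set.ncard_coe_finset]
      congr 1
      ext i
      simp only [Set.mem_image, Set.mem_ofPred_eq, Finset.coe_biUnion, Set.mem_iUnion, Finset.mem_coe,
        Finset.mem_image, id]
      constructor
      · rintro ⟨a, ⟨b, hb, hab⟩, rfl⟩
        refine ⟨tri b, ⟨b, hb, rfl⟩, ?_⟩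
        rw [hmem, e.symm_apply_apply]
        exact hab
      · rintro ⟨_, ⟨b, hb, rfl⟩, hi⟩
        exact ⟨e.symm i, ⟨b, hb, (hmem b i).1 hi⟩, e.apply_symm_apply i⟩
    rw [h2, h4, Set.ncard_coe_finset] at h1
    omega
  · intro K _
    let f : B ≃ ↥(Finset.univ.image tri) :=
      Equiv.ofBijective (fun b => ⟨tri b, Finset.mem_image_of_mem _ (Finset.mem_univ b)⟩)
        ⟨fun b b' h => hinj (congrArg Subtype.val h), by
          rintro ⟨t, ht⟩
          obtain ⟨b, -, rfl⟩ := Finset.mem_image.1 ht
          exact ⟨b, rfl⟩⟩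
    have hf : ∀ b, (f b).1 = tri b := fun b => rfl
    let E : ((Fin n → ℙ K (Fin 3 → K)) × (↥(Finset.univ.image tri) → ℙ K (Fin 3 → K))) ≃
        (A → ℙ K (Fin 3 → K)) × (B → ℙ K (Fin 3 → K)) :=
      Equiv.prodCongr (Equiv.arrowCongr e.symm (Equiv.refl _)) (Equiv.arrowCongr f.symm (Equiv.refl _))
    refine Nat.card_congr (Equiv.subtypeEquiv E ?_)
    rintro ⟨x, y⟩
    constructor
    · intro h a b hab
      refine h (f b) (e a) ?_
      rw [hf, hmem, e.symm_apply_apply]
      exact hab
    · intro h t i hi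
      obtain ⟨b, rfl⟩ := f.surjective t
      rw [hf, hmem] at hi
      have h1 := h (e.symm i) b hi
      have h2 : (E (x, y)).1 (e.symm i) = x i := congrArg x (e.apply_symm_apply i)
      have h4 : (E (x, y)).2 b = y (f b) := rfl
      rw [h2, h4] at h1
      exact h1

/-- MODULE PNI (S). `pend R m` with `m b = 3 - dB R b` satisfies the hypotheses of `exists_ts`, and
`(q + 1)^(∑ m) * hc R = hc (pend R m)` by `hom_pend` and `plane_inc`: `Sp.div` with the monic polynomial
`(X + 1)^(∑ m)`. -/
theorem pend_mem (g : ℕ) (A B : Type) [Fintype A] [Fintype B] (R : A → B → Prop) (h3 : Sub3 R)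
    (hs : Sparse (g + 2) R) : Sp (TS g) (hc R) := by
  obtain ⟨C, hC⟩ := exists_ts g (pend R fun b => 3 - dB R b)
    (fun b => by
      rw [dB_pend]
      have := h3.2 b
      omega)
    (fun a => dA_pend R _ h3.1 a) (sparse_pend _ R _ hs)
  refine Sp.div ((Polynomial.X + 1) ^ (∑ b, (3 - dB R b))) ?_ ?_
  · exact (Polynomial.monic_X_add_C 1).pow _
  · refine sp_congr (Sp.base ⟨C, rfl⟩) fun F => ?_
    rw [hC F.K, hom_pend (plane_inc F.K) R]
    simp only [hc, FinField.q, Polynomial.eval_pow, Polynomial.eval_add, Polynomial.eval_X,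
      Polynomial.eval_one]
    push_cast
    ring

/-- MODULE BDC (S). `cnt` is at most the number of all pairs of maps, `Nat.card (ℙ K (Fin 3 → K)) ≤ q ^ 3` (a
surjection from the nonzero vectors); `bd_of_le` (KGU/Tr.lean) with `A = 3 * (C.n + C.T.card)`. -/
theorem cnt_le {g : ℕ} (C : TripleSystem g) (K : Type) [Field K] [Finite K] :
    C.cnt K ≤ Nat.card K ^ (3 * (C.n + C.T.card)) := by
  classical
  have h1 : Nat.card (ℙ K (Fin 3 → K)) ≤ Nat.card K ^ 3 := by
    have h2 : Nat.card (ℙ K (Fin 3 → K)) ≤ Nat.card {v : Fin 3 → K // v ≠ 0} := by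
      refine Nat.card_le_card_of_surjective (fun v => Projectivization.mk K v.1 v.2) ?_
      intro p
      exact ⟨⟨p.rep, p.rep_nonzero⟩, p.mk_rep⟩
    refine h2.trans ?_
    have h4 : Nat.card {v : Fin 3 → K // v ≠ 0} ≤ Nat.card (Fin 3 → K) :=
      Nat.card_le_card_of_injective _ Subtype.val_injective
    refine h4.trans ?_
    rw [Nat.card_fun, Nat.card_eq_fintype_card (α := Fin 3), Fintype.card_fin]
  have hfin : Finite (ℙ K (Fin 3 → K)) := Finite.of_surjective
    (fun v : {v : Fin 3 → K // v ≠ 0} => Projectivization.mk K v.1 v.2)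
    (fun p => ⟨⟨p.rep, p.rep_nonzero⟩, p.mk_rep⟩)
  have h2 : C.cnt K ≤ Nat.card ((Fin C.n → ℙ K (Fin 3 → K)) × (C.T → ℙ K (Fin 3 → K))) :=
    Nat.card_le_card_of_injective _ Subtype.val_injective
  refine h2.trans ?_
  rw [Nat.card_prod, Nat.card_fun, Nat.card_fun, Nat.card_eq_fintype_card (α := Fin C.n), Fintype.card_fin,
    Nat.card_eq_fintype_card (α := C.T), Fintype.card_coe, ← pow_add, pow_mul]
  exact Nat.pow_le_pow_left h1 _

end Pool.Agent.Ptl
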