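import Pool.Agent.Ptl.Pl
import Pool.Agent.KGU.USp

/-! # Subdivision: no short cycles -/

set_option autoImplicit false

open scoped BigOperators LinearAlgebra.Projectivization

namespace Pool.Agent.Ptl

open Pool.Agent.KG Pool.Agent.HGC Pool.Agent.KGU

/-- MODULE PTA (S). For every line `y` through `p` there are `q + 1` points on `y`. -/
theorem flag_count {P L : Type} {I : P → L → Prop} {q : ℕ} (hP : Plane I q) (p : P) :
    Nat.card {z : L × P // I p z.1 ∧ I z.2 z.1} = (q + 1) ^ 2 := by
  classical
  have := hP.fp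
  have := hP.fl
  have : Fintype {y // I p y} := Fintype.ofFinite _
  have h1 : Nat.card {z : L × P // I p z.1 ∧ I z.2 z.1} =
      Nat.card (Σ y : {y // I p y}, {x // I x y.1}) := by
    refine Nat.card_congr
      { toFun := fun z => ⟨⟨z.1.1, z.2.1⟩, ⟨z.1.2, z.2.2⟩⟩
        invFun := fun z => ⟨(z.1.1, z.2.1), ⟨z.1.2, z.2.2⟩⟩
        left_inv := fun z => rfl
        right_inv := fun z => rfl }
  rw [h1, Nat.card_sigma, Finset.sum_congr rfl fun y _ => hP.points y.1, Finset.sum_const,
    Finset.card_univ, ← Nat.card_eq_fintype_card, hP.lines p, smul_eq_mul, sq]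

open Classical in
/-- MODULE PTB (M). If `p` is on `l`: for the line `y = l` there are `q + 1` points, for each of the other `q` lines
through `p` there is one point on `y` and `l`, together `2 q + 1`. If `p` is not on `l`: each of the `q + 1` lines
`y` through `p` is different from `l` and has one point with `l` in common. -/
theorem meet_count {P L : Type} {I : P → L → Prop} {q : ℕ} (hP : Plane I q) (p : P) (l : L) :
    Nat.card {z : L × P // I p z.1 ∧ I z.2 z.1 ∧ I z.2 l} = (q + 1) + q * (if I p l then 1 else 0) := by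
  have := hP.fp
  have := hP.fl
  have : Fintype {y // I p y} := Fintype.ofFinite _
  have h1 : Nat.card {z : L × P // I p z.1 ∧ I z.2 z.1 ∧ I z.2 l} =
      Nat.card (Σ y : {y // I p y}, {x // I x y.1 ∧ I x l}) := by
    refine Nat.card_congr
      { toFun := fun z => ⟨⟨z.1.1, z.2.1⟩, ⟨z.1.2, z.2.2⟩⟩
        invFun := fun z => ⟨(z.1.1, z.2.1), ⟨z.1.2, z.2.2⟩⟩
        left_inv := fun z => rfl
        right_inv := fun z => rfl }
  have h2 : ∀ y : {y // I p y}, Nat.card {x // I x y.1 ∧ I x l} = 1 + q * (if y.1 = l then 1 else 0) := by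
    intro y
    by_cases hy : y.1 = l
    · rw [if_pos hy]
      have h3 : Nat.card {x // I x y.1 ∧ I x l} = Nat.card {x // I x l} := by
        rw [hy]
        exact Nat.card_congr (Equiv.subtypeEquivRight fun x => and_self_iff)
      rw [h3, hP.points l]
      ring
    · rw [if_neg hy, hP.point y.1 l hy, mul_zero, add_zero]
  rw [h1, Nat.card_sigma, Finset.sum_congr rfl fun y _ => h2 y, Finset.sum_add_distrib,
    ← Finset.mul_sum, Finset.sum_const, Finset.card_univ, ← Nat.card_eq_fintype_card, hP.lines p,
    smul_eq_mul, mul_one]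
  congr 2
  by_cases hl : I p l
  · rw [if_pos hl, Finset.sum_eq_single (⟨l, hl⟩ : {y // I p y})]
    · rw [if_pos rfl]
    · intro y _ hy
      rw [if_neg fun h => hy (Subtype.ext h)]
    · intro h
      exact absurd (Finset.mem_univ _) h
  · rw [if_neg hl]
    refine Finset.sum_eq_zero fun y _ => ?_
    rw [if_neg]
    intro h
    exact hl (h ▸ y.2)

open Classical in
/-- MODULE PTH (L). Induction on `m ≥ 1`. For `m = 1` this is `meet_count` (`x 0` on `y 0` and `l`, `p` on `y 0`),
`cst q 1 = q + 1`. Step: a path of length `m + 1` is a pair `(y m, x m)` with `p` and `x m` on `y m` and a path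
of length `m` from `x m` to `l` (`Fin.snoc` / `Fin.init`), so the number is
`∑_(y,x) (q^m [I x l] + cst q m) = q^m * ((q + 1) + q [I p l]) + (q + 1)^2 * cst q m`. -/
theorem path_count {P L : Type} {I : P → L → Prop} {q : ℕ} (hP : Plane I q) (m : ℕ) (hm : 1 ≤ m) (p : P)
    (l : L) : Nat.card {z : (Fin m → P) × (Fin m → L) // IsPath I p l z.1 z.2} =
      q ^ m * (if I p l then 1 else 0) + cst q m := by
  have := hP.fp
  have := hP.fl
  induction m, hm using Nat.le_induction generalizing p with
  | base =>
    have h1 : Nat.card {z : (Fin 1 → P) × (Fin 1 → L) // IsPath I p l z.1 z.2} =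
        Nat.card {z : L × P // I p z.1 ∧ I z.2 z.1 ∧ I z.2 l} := by
      refine Nat.card_congr
        { toFun := fun z => ⟨(z.1.2 0, z.1.1 0), z.2.2.2.2 0 rfl, z.2.1 0, z.2.2.2.1 0 rfl⟩
          invFun := fun z => ⟨(fun _ => z.1.2, fun _ => z.1.1), ⟨fun _ => z.2.2.1, fun i j h => by omega,
            fun _ _ => z.2.2.2, fun _ _ => z.2.1⟩⟩
          left_inv := fun z => ?_
          right_inv := fun z => rfl }
      apply Subtype.ext
      apply Prod.ext
      · funext i
        rw [Subsingleton.elim i 0]
      · funext i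
        rw [Subsingleton.elim i 0]
    rw [h1, meet_count hP p l]
    simp only [cst, pow_zero, pow_one]
    ring
  | succ m hm ih =>
    have : Fintype {z : L × P // I p z.1 ∧ I z.2 z.1} := Fintype.ofFinite _
    have h0 : Nat.card {z : (Fin (m + 1) → P) × (Fin (m + 1) → L) // IsPath I p l z.1 z.2} =
        Nat.card {t : (L × P) × ((Fin m → P) × (Fin m → L)) //
          (I p t.1.1 ∧ I t.1.2 t.1.1) ∧ IsPath I t.1.2 l t.2.1 t.2.2} := by
      refine Nat.card_congr
        { toFun := fun z => ⟨((z.1.2 (Fin.last m), z.1.1 (Fin.last m)),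
              (fun i => z.1.1 i.castSucc, fun i => z.1.2 i.castSucc)),
              ⟨z.2.2.2.2 (Fin.last m) rfl, z.2.1 (Fin.last m)⟩, ?_⟩
          invFun := fun t => ⟨(Fin.snoc (α := fun _ => P) t.1.2.1 t.1.1.2,
            Fin.snoc (α := fun _ => L) t.1.2.2 t.1.1.1), ?_⟩
          left_inv := fun z => ?_
          right_inv := fun w => ?_ }
      · refine ⟨fun i => z.2.1 _, fun i j h => z.2.2.1 _ _ (by simpa using h), fun i h => z.2.2.2.1 _ (by simpa using h),
          fun i h => z.2.2.1 _ _ (by simp [h])⟩
      · obtain ⟨⟨⟨y, x⟩, ⟨x', y'⟩⟩, hw, hz⟩ := t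
        refine ⟨fun i => ?_, fun i j h => ?_, fun i h => ?_, fun i h => ?_⟩
        · refine Fin.lastCases ?_ (fun i => ?_) i
          · simpa using hw.2
          · simpa using hz.1 i
        · rcases Fin.eq_castSucc_or_eq_last j with ⟨j, rfl⟩ | rfl
          · rcases Fin.eq_castSucc_or_eq_last i with ⟨i, rfl⟩ | rfl
            · simpa using hz.2.1 i j (by simpa using h)
            · simpa using hz.2.2.2 j (by simpa using h.symm)
          · exfalso
            have := i.2
            simp at h
            omega
        · rcases Fin.eq_castSucc_or_eq_last i with ⟨i, rfl⟩ | rfl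
          · simpa using hz.2.2.1 i (by simpa using h)
          · exfalso
            simp at h
            omega
        · rcases Fin.eq_castSucc_or_eq_last i with ⟨i, rfl⟩ | rfl
          · exfalso
            have := i.2
            simp at h
            omega
          · simpa using hw.1
      · apply Subtype.ext
        apply Prod.ext
        · funext i
          refine Fin.lastCases ?_ (fun i => ?_) i
          · simp
          · simp
        · funext i
          refine Fin.lastCases ?_ (fun i => ?_) i
          · simp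
          · simp
      · apply Subtype.ext
        obtain ⟨⟨⟨y, x⟩, ⟨x', y'⟩⟩, hw, hz⟩ := w
        simp
    have h1 : Nat.card {z : (Fin (m + 1) → P) × (Fin (m + 1) → L) // IsPath I p l z.1 z.2} =
        Nat.card (Σ w : {z : L × P // I p z.1 ∧ I z.2 z.1},
          {z : (Fin m → P) × (Fin m → L) // IsPath I w.1.2 l z.1 z.2}) := by
      rw [h0]
      refine Nat.card_congr
        { toFun := fun t => ⟨⟨t.1.1, t.2.1⟩, ⟨t.1.2, t.2.2⟩⟩
          invFun := fun w => ⟨(w.1.1, w.2.1), w.1.2, w.2.2⟩
          left_inv := fun t => rfl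
          right_inv := fun w => rfl }
    rw [h1, Nat.card_sigma, Finset.sum_congr rfl fun w _ => ih w.1.2, Finset.sum_add_distrib,
      ← Finset.mul_sum, Finset.sum_const, Finset.card_univ, ← Nat.card_eq_fintype_card, flag_count hP p]
    have h2 : (∑ w : {z : L × P // I p z.1 ∧ I z.2 z.1}, if I w.1.2 l then 1 else 0) =
        (q + 1) + q * (if I p l then 1 else 0) := by
      rw [← meet_count hP p l, Finset.sum_boole, Nat.cast_id, ← Fintype.card_subtype, ← Nat.card_eq_fintype_card]
      refine Nat.card_congr
        { toFun := fun z => ⟨z.1.1, z.1.2.1, z.1.2.2, z.2⟩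
          invFun := fun z => ⟨⟨z.1, z.2.1, z.2.2.1⟩, z.2.2.2⟩
          left_inv := fun z => rfl
          right_inv := fun z => rfl }
    rw [h2]
    simp only [cst, smul_eq_mul]
    ring

/-- MODULE SBC (L). The solutions of `subE m E` are: `(x, y)` for the old points and lines (no condition) and for
each pair `e = (a, b)` of `E` a path from `x a` to `y b` (conditions of `IsPath I (x a) (y b)`). So the number is
`∑_(x,y) ∏_(e ∈ E) (q^m [I (x e.1) (y e.2)] + c)`, `c = cst q m`, by `path_count`. Expand the product
(`Finset.prod_add`): `∑_(T ⊆ E) (q^m)^|T| c^(|E|-|T|) ∏_(e ∈ T) [I (x e.1) (y e.2)]`, and exchange the sums: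
`∑_(x,y) ∏_(e ∈ T) [I (x e.1) (y e.2)] = hom I (rel T)`. -/
theorem hom_subE {A B P L : Type} [Fintype A] [Fintype B] {I : P → L → Prop} {q : ℕ} (hP : Plane I q) (m : ℕ)
    (hm : 1 ≤ m) (E : Finset (A × B)) :
    hom I (subE m E) = ∑ T ∈ E.powerset, (q ^ m) ^ T.card * cst q m ^ (E.card - T.card) * hom I (rel T) := by
  classical
  have := hP.fp
  have := hP.fl
  have : Fintype ((A → P) × (B → L)) := Fintype.ofFinite _
  have h1 : hom I (subE m E) = Nat.card (Σ w : (A → P) × (B → L), ∀ e : E,
      {z : (Fin m → P) × (Fin m → L) // IsPath I (w.1 e.1.1) (w.2 e.1.2) z.1 z.2}) := by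
    unfold hom
    refine Nat.card_congr
      { toFun := fun x => ⟨(fun a => x.1.1 (Sum.inl a), fun b => x.1.2 (Sum.inl b)), fun e =>
          ⟨(fun i => x.1.1 (Sum.inr (e, i)), fun i => x.1.2 (Sum.inr (e, i))),
            ⟨fun i => x.2 _ _ ⟨rfl, Or.inl rfl⟩, fun i j h => x.2 _ _ ⟨rfl, Or.inr h⟩,
              fun i h => x.2 _ _ ⟨rfl, h⟩, fun i h => x.2 _ _ ⟨rfl, h⟩⟩⟩⟩
        invFun := fun w => ⟨(Sum.elim w.1.1 fun z => (w.2 z.1).1.1 z.2,
          Sum.elim w.1.2 fun z => (w.2 z.1).1.2 z.2), ?_⟩
        left_inv := fun x => ?_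
        right_inv := fun w => ?_ }
    · rintro (a | ⟨e, i⟩) (b | ⟨f, j⟩) h
      · exact h.elim
      · obtain ⟨h2, h3⟩ := h
        subst h2
        exact (w.2 f).2.2.2.2 j h3
      · obtain ⟨h2, h3⟩ := h
        subst h2
        exact (w.2 e).2.2.2.1 i h3
      · obtain ⟨h2, h3⟩ := h
        subst h2
        rcases h3 with h3 | h3
        · subst h3
          exact (w.2 e).2.1 i
        · exact (w.2 e).2.2.1 i j h3
    · apply Subtype.ext
      apply Prod.ext
      · funext y
        rcases y with a | ⟨e, i⟩
        · rfl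
        · rfl
      · funext y
        rcases y with a | ⟨e, i⟩
        · rfl
        · rfl
    · rfl
  have h2 : ∀ w : (A → P) × (B → L), Nat.card (∀ e : E,
      {z : (Fin m → P) × (Fin m → L) // IsPath I (w.1 e.1.1) (w.2 e.1.2) z.1 z.2}) =
      ∑ T ∈ E.powerset, (q ^ m) ^ T.card * cst q m ^ (E.card - T.card) *
        (if ∀ e ∈ T, I (w.1 e.1) (w.2 e.2) then 1 else 0) := by
    intro w
    rw [Nat.card_pi, Finset.prod_congr rfl fun e _ => path_count hP m hm (w.1 e.1.1) (w.2 e.1.2),
      Finset.prod_coe_sort E (fun e => q ^ m * (if I (w.1 e.1) (w.2 e.2) then 1 else 0) + cst q m),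
      Finset.prod_add]
    refine Finset.sum_congr rfl fun T hT => ?_
    rw [Finset.prod_mul_distrib, Finset.prod_const, Finset.prod_const, Finset.prod_boole,
      Finset.card_sdiff_of_subset (Finset.mem_powerset.1 hT)]
    ring_nf
  rw [h1, Nat.card_sigma, Finset.sum_congr rfl fun w _ => h2 w, Finset.sum_comm]
  refine Finset.sum_congr rfl fun T _ => ?_
  rw [← Finset.mul_sum]
  congr 1
  rw [Finset.sum_boole, Nat.cast_id, ← Fintype.card_subtype, ← Nat.card_eq_fintype_card]
  unfold hom
  refine Nat.card_congr (Equiv.subtypeEquivRight fun x => ?_)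
  exact ⟨fun h a b hab => h (a, b) hab, fun h e he => h e.1 e.2 he⟩

private theorem SBS_three {α : Type} (a b c : α) : ({a, b, c} : Set α).ncard ≤ 3 := by
  have h1 := Set.ncard_insert_le a {b, c}
  have h2 := Set.ncard_insert_le b {c}
  rw [Set.ncard_singleton] at h2
  omega

/-- MODULE SBS (M). Degrees in `subE m E`: an old point `a` has degree `dA (rel E) a` (the pairs `(e, m - 1)`,
`e.1 = a`), an old line `b` has degree `dB (rel E) b` (the pairs `(e, 0)`, `e.2 = b`), the new points and lines
have degree `2` (at most). -/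
theorem sub3_subE {A B : Type} [Fintype A] [Fintype B] (m : ℕ) (hm : 1 ≤ m) (E : Finset (A × B))
    (hE : Sub3 (rel E)) : Sub3 (subE m E) := by
  classical
  refine ⟨?_, ?_⟩
  · rintro (a | ⟨e, i⟩)
    · refine le_trans ?_ (hE.1 a)
      unfold dA
      refine Set.ncard_le_ncard_of_injOn (fun y => Sum.elim id (fun z => z.1.1.2) y) ?_ ?_ (Set.toFinite _)
      · rintro (b | ⟨e, i⟩) h
        · exact h.elim
        · obtain ⟨h1, -⟩ := h
          show (a, e.1.2) ∈ E
          rw [← h1]
          exact e.2
      · rintro (b | ⟨e, i⟩) h (b' | ⟨e', i'⟩) h' hh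
        · exact h.elim
        · exact h.elim
        · exact h'.elim
        · obtain ⟨h1, h2⟩ := h
          obtain ⟨h1', h2'⟩ := h'
          have h3 : e = e' := Subtype.ext (Prod.ext (h1.trans h1'.symm) hh)
          have h4 : i = i' := Fin.ext (by omega)
          rw [h3, h4]
    · unfold dA
      have hsub : {b | subE m E (Sum.inr (e, i)) b} ⊆
          ({Sum.inl e.1.2, Sum.inr (e, i), Sum.inr (e, ⟨(i : ℕ) - 1, by have := i.2; omega⟩)} :
            Set (B ⊕ (E × Fin m))) := by
        rintro (b | ⟨f, j⟩) h
        · obtain ⟨h1, -⟩ := h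
          left
          rw [h1]
        · obtain ⟨h1, h2⟩ := h
          subst h1
          rcases h2 with h2 | h2
          · right
            left
            rw [h2]
          · right
            right
            have h3 : j = ⟨(i : ℕ) - 1, by have := i.2; omega⟩ := Fin.ext (by simp only; omega)
            rw [h3]
            rfl
      refine (Set.ncard_le_ncard hsub (Set.toFinite _)).trans ?_
      exact SBS_three _ _ _
  · rintro (b | ⟨f, j⟩)
    · refine le_trans ?_ (hE.2 b)
      unfold dB
      refine Set.ncard_le_ncard_of_injOn (fun y => Sum.elim id (fun z => z.1.1.1) y) ?_ ?_ (Set.toFinite _)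
      · rintro (a | ⟨e, i⟩) h
        · exact h.elim
        · obtain ⟨h1, -⟩ := h
          show (e.1.1, b) ∈ E
          rw [← h1]
          exact e.2
      · rintro (a | ⟨e, i⟩) h (a' | ⟨e', i'⟩) h' hh
        · exact h.elim
        · exact h.elim
        · exact h'.elim
        · obtain ⟨h1, h2⟩ := h
          obtain ⟨h1', h2'⟩ := h'
          have h3 : e = e' := Subtype.ext (Prod.ext hh (h1.trans h1'.symm))
          have h4 : i = i' := Fin.ext (by omega)
          rw [h3, h4]
    · unfold dB
      have hsub : {a | subE m E a (Sum.inr (f, j))} ⊆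
          ({Sum.inl f.1.1, Sum.inr (f, j), Sum.inr (f, ⟨min ((j : ℕ) + 1) (m - 1), by omega⟩)} :
            Set (A ⊕ (E × Fin m))) := by
        rintro (a | ⟨e, i⟩) h
        · obtain ⟨h1, -⟩ := h
          left
          rw [h1]
        · obtain ⟨h1, h2⟩ := h
          subst h1
          rcases h2 with h2 | h2
          · right
            left
            rw [h2]
          · right
            right
            have h3 : i = ⟨min ((j : ℕ) + 1) (m - 1), by omega⟩ := Fin.ext (by
              have := i.2
              simp only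
              omega)
            rw [h3]
            rfl
      refine (Set.ncard_le_ncard hsub (Set.toFinite _)).trans ?_
      exact SBS_three _ _ _

/-- MODULE SBP (L). Let `S` be a nonempty set of at most `g < m` lines. For every `e ∈ E` choose `k e` with
`(e, k e) ∉ S`. The incidences with lines of `S` are: (a) for `b ∈ S` old: the points `(e, 0)`, `e.2 = b`; (b) for
`(e, i) ∈ S` with `i < k e`: the points `(e, i)` and `(e, i + 1)`; (c) for `(e, i) ∈ S` with `i > k e`: the points
`(e, i)` and `(e, i + 1)` (or the old point `e.1` if `i = m - 1`). Call CHILDREN: for (a) all the points `(e, 0)`; for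
(b) the point `(e, i + 1)`; for (c) the point `(e, i)`. The children of different lines of `S` are different
(`(e, i + 1)` in (b) has `0 < i + 1 ≤ k e`, `(e, i)` in (c) has `i > k e`), so with `N` the number of the points on
lines of `S`, `e(S)` the number of incidences and `s` the number of new lines in `S` (each new line has two points,
one of them a child): `N ≥ e(S) - s`. If there is an old line in `S` this gives `e(S) + 1 ≤ s + 1 + N ≤ |S| + N`.
If not, there is a point of a line of `S` which is not a child, so `N ≥ e(S) - s + 1 = e(S) - |S| + 1`: let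
`(e, i) ∈ S`; if `i < k e` let `i` be the least index of the block of consecutive indices of lines of `S` on the path
`e` which contains `i`: the point `(e, i)` is not a child of (b) (this would need `(e, i - 1) ∈ S`, or `i = 0` and the
old line in `S`); if `i > k e` let `i` be the largest index of the block: the point `(e, i + 1)` (or the old point
`e.1`) is not a child. (Another proof which gives the same is welcome.) -/
theorem sparse_subE {A B : Type} [Fintype A] [Fintype B] (m g : ℕ) (hg : g < m) (E : Finset (A × B)) :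
    Sparse g (subE m E) := by
  classical
  intro S hSne hSg
  -- a line of each path which is not in `S`
  have hk : ∀ e : E, ∃ k : Fin m, (Sum.inr (e, k) : B ⊕ (E × Fin m)) ∉ S := by
    intro e
    by_contra hcon
    push Not at hcon
    have h1 : (Set.univ : Set (Fin m)).ncard ≤ S.ncard := by
      refine Set.ncard_le_ncard_of_injOn (fun k => (Sum.inr (e, k) : B ⊕ (E × Fin m)))
        (fun k _ => hcon k) ?_ (Set.toFinite _)
      intro k _ k' _ hkk
      have h2 : (e, k) = (e, k') := Sum.inr_injective hkk
      exact (Prod.ext_iff.1 h2).2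
    rw [Set.ncard_univ, Nat.card_eq_fintype_card, Fintype.card_fin] at h1
    omega
  choose k hk using hk
  set Inc := {x : (A ⊕ (E × Fin m)) × (B ⊕ (E × Fin m)) | x.2 ∈ S ∧ subE m E x.1 x.2} with hInc
  set N := {a | ∃ b ∈ S, subE m E a b} with hN
  let φ : (A ⊕ (E × Fin m)) × (B ⊕ (E × Fin m)) → (B ⊕ (E × Fin m)) ⊕ (A ⊕ (E × Fin m)) := fun x =>
    match x.2 with
    | Sum.inl _ => Sum.inr x.1
    | Sum.inr (e, i) => if ((i : ℕ) < k e ↔ x.1 = Sum.inr (e, i)) then Sum.inl (Sum.inr (e, i)) else Sum.inr x.1
  have hφl : ∀ (x : A ⊕ (E × Fin m)) (b : B), φ (x, Sum.inl b) = Sum.inr x := fun x b => rfl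
  have hφr : ∀ (x : A ⊕ (E × Fin m)) (e : E) (i : Fin m), φ (x, Sum.inr (e, i)) =
      if ((i : ℕ) < k e ↔ x = Sum.inr (e, i)) then Sum.inl (Sum.inr (e, i)) else Sum.inr x :=
    fun x e i => rfl
  -- the lines of which a point can be a child
  have hchild : ∀ (x : A ⊕ (E × Fin m)) (y : B ⊕ (E × Fin m)), y ∈ S → subE m E x y → φ (x, y) = Sum.inr x →
      ∃ (e : E) (i : Fin m), x = Sum.inr (e, i) ∧
        ((y = Sum.inl e.1.2 ∧ (i : ℕ) = 0) ∨ (y = Sum.inr (e, i) ∧ (k e : ℕ) < i) ∨
          ∃ j : Fin m, (i : ℕ) = j + 1 ∧ y = Sum.inr (e, j) ∧ (j : ℕ) < k e) := by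
    rintro x (b | ⟨f, j⟩) hy hxy hx
    · rcases x with a | ⟨e, i⟩
      · exact hxy.elim
      · obtain ⟨h1, h2⟩ := hxy
        exact ⟨e, i, rfl, Or.inl ⟨by rw [h1], h2⟩⟩
    · rw [hφr] at hx
      have hx' : ¬ ((j : ℕ) < k f ↔ x = Sum.inr (f, j)) := by
        intro hcon
        rw [if_pos hcon] at hx
        exact Sum.inl_ne_inr hx
      rcases x with a | ⟨e, i⟩
      · obtain ⟨h1, h2⟩ := hxy
        exfalso
        apply hx'
        have h3 := (k f).2
        constructor
        · intro h4
          omega
        · intro h4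
          exact absurd h4 Sum.inl_ne_inr
      · obtain ⟨h1, h2⟩ := hxy
        subst h1
        refine ⟨e, i, rfl, ?_⟩
        rcases h2 with h2 | h2
        · subst h2
          right
          left
          refine ⟨rfl, ?_⟩
          have h3 : (i : ℕ) ≠ k e := by
            intro h3
            apply hk e
            rw [← Fin.ext h3]
            exact hy
          have h4 : ¬ (i : ℕ) < k e := fun h4 => hx' ⟨fun _ => rfl, fun _ => h4⟩
          omega
        · right
          right
          refine ⟨j, h2, rfl, ?_⟩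
          by_contra h4
          apply hx'
          constructor
          · intro h5
            exact absurd h5 h4
          · intro h5
            exfalso
            have h6 : (e, i) = (e, j) := Sum.inr_injective h5
            have h7 : i = j := (Prod.ext_iff.1 h6).2
            rw [h7] at h2
            omega
  have hinj : Set.InjOn φ Inc := by
    rintro ⟨x, y⟩ ⟨hy, hxy⟩ ⟨x', y'⟩ ⟨hy', hxy'⟩ hh
    have hval : ∀ (x : A ⊕ (E × Fin m)) (y : B ⊕ (E × Fin m)), φ (x, y) = Sum.inr x ∨
        ∃ (e : E) (i : Fin m), y = Sum.inr (e, i) ∧ φ (x, y) = Sum.inl y ∧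
          ((i : ℕ) < k e ↔ x = Sum.inr (e, i)) := by
      rintro x (b | ⟨f, j⟩)
      · exact Or.inl rfl
      · by_cases h1 : ((j : ℕ) < k f ↔ x = Sum.inr (f, j))
        · exact Or.inr ⟨f, j, rfl, by rw [hφr, if_pos h1], h1⟩
        · exact Or.inl (by rw [hφr, if_neg h1])
    rcases hval x y with h1 | ⟨e, i, h1, h2, h3⟩
    · rcases hval x' y' with h1' | ⟨e', i', h1', h2', h3'⟩
      · rw [h1, h1'] at hh
        have hxx : x = x' := Sum.inr_injective hh
        subst hxx
        obtain ⟨e, i, hx, hc⟩ := hchild x y hy hxy h1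
        obtain ⟨e', i', hx', hc'⟩ := hchild x y' hy' hxy' h1'
        rw [hx] at hx'
        have h5 : (e, i) = (e', i') := Sum.inr_injective hx'
        obtain ⟨h6, h7⟩ := Prod.ext_iff.1 h5
        simp only at h6 h7
        subst h6 h7
        refine congrArg (Prod.mk x) ?_
        rcases hc with ⟨c1, c2⟩ | ⟨c1, c2⟩ | ⟨j, c1, c2, c3⟩ <;>
          rcases hc' with ⟨d1, d2⟩ | ⟨d1, d2⟩ | ⟨j', d1, d2, d3⟩
        · rw [c1, d1]
        · exfalso
          omega
        · exfalso
          omega
        · exfalso
          omega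
        · rw [c1, d1]
        · exfalso
          omega
        · exfalso
          omega
        · exfalso
          omega
        · have h8 : j = j' := Fin.ext (by omega)
          rw [c2, d2, h8]
      · rw [h1, h2'] at hh
        exact absurd hh Sum.inr_ne_inl
    · rcases hval x' y' with h1' | ⟨e', i', h1', h2', h3'⟩
      · rw [h2, h1'] at hh
        exact absurd hh Sum.inl_ne_inr
      · rw [h2, h2'] at hh
        have hyy : y = y' := Sum.inl_injective hh
        subst hyy
        rw [h1] at h1'
        have h5 : (e, i) = (e', i') := Sum.inr_injective h1'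
        obtain ⟨h6, h7⟩ := Prod.ext_iff.1 h5
        simp only at h6 h7
        subst h6 h7
        refine congrArg (fun z => (z, y)) ?_
        rw [h1] at hxy hxy' hy
        by_cases h8 : (i : ℕ) < k e
        · rw [h3.1 h8, h3'.1 h8]
        · have h9 : x ≠ Sum.inr (e, i) := fun h => h8 (h3.2 h)
          have h9' : x' ≠ Sum.inr (e, i) := fun h => h8 (h3'.2 h)
          have huniq : ∀ z : A ⊕ (E × Fin m), z ≠ Sum.inr (e, i) → subE m E z (Sum.inr (e, i)) →
              (z = Sum.inl e.1.1 ∧ (i : ℕ) + 1 = m) ∨ ∃ j : Fin m, z = Sum.inr (e, j) ∧ (j : ℕ) = i + 1 := by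
            rintro (a | ⟨f, j⟩) hz hz'
            · obtain ⟨h10, h11⟩ := hz'
              left
              exact ⟨by rw [h10], h11⟩
            · obtain ⟨h10, h11⟩ := hz'
              subst h10
              rcases h11 with h11 | h11
              · exfalso
                exact hz (by rw [h11])
              · right
                exact ⟨j, rfl, h11⟩
          rcases huniq x h9 hxy with ⟨c1, c2⟩ | ⟨j, c1, c2⟩ <;>
            rcases huniq x' h9' hxy' with ⟨d1, d2⟩ | ⟨j', d1, d2⟩
          · rw [c1, d1]
          · exfalso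
            have := j'.2
            omega
          · exfalso
            have := j.2
            omega
          · rw [c1, d1, Fin.ext (c2.trans d2.symm)]
  -- an element which is not in the image
  have hmiss : ∃ t ∈ (Sum.inl '' S ∪ Sum.inr '' N : Set ((B ⊕ (E × Fin m)) ⊕ (A ⊕ (E × Fin m)))),
      t ∉ φ '' Inc := by
    by_cases hold : ∃ b : B, (Sum.inl b : B ⊕ (E × Fin m)) ∈ S
    · obtain ⟨b, hb⟩ := hold
      refine ⟨Sum.inl (Sum.inl b), Or.inl ⟨_, hb, rfl⟩, ?_⟩
      rintro ⟨⟨x, y⟩, ⟨hy, hxy⟩, hx⟩
      rcases y with b' | ⟨e, i⟩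
      · rw [hφl] at hx
        exact Sum.inr_ne_inl hx
      · rw [hφr] at hx
        split_ifs at hx with h1
        · exact Sum.inr_ne_inl (Sum.inl_injective hx)
    · push Not at hold
      obtain ⟨y0, hy0⟩ := hSne
      rcases y0 with b | ⟨e, i⟩
      · exact absurd hy0 (hold b)
      · -- the lines of `S` on the path `e`
        have hfin : (Finset.univ.filter fun j : Fin m => (Sum.inr (e, j) : B ⊕ (E × Fin m)) ∈ S).Nonempty :=
          ⟨i, Finset.mem_filter.2 ⟨Finset.mem_univ _, hy0⟩⟩
        by_cases hik : (i : ℕ) < k e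
        · -- the least one
          obtain ⟨j, hj, hjmin⟩ := Finset.exists_min_image _ (fun j : Fin m => (j : ℕ)) hfin
          rw [Finset.mem_filter] at hj
          have hji : (j : ℕ) ≤ i := hjmin i (Finset.mem_filter.2 ⟨Finset.mem_univ _, hy0⟩)
          have hin : subE m E (Sum.inr (e, j)) (Sum.inr (e, j)) := ⟨rfl, Or.inl rfl⟩
          refine ⟨Sum.inr (Sum.inr (e, j)), Or.inr ⟨_, ⟨Sum.inr (e, j), hj.2, hin⟩, rfl⟩, ?_⟩
          rintro ⟨⟨x, y⟩, ⟨hy, hxy⟩, hx⟩
          have hxe : x = Sum.inr (e, j) := by
            rcases y with b' | ⟨e', i'⟩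
            · rw [hφl] at hx
              exact Sum.inr_injective hx
            · rw [hφr] at hx
              split_ifs at hx with h1
              · exact Sum.inr_injective hx
          subst hxe
          obtain ⟨e', i', hx', hc'⟩ := hchild _ y hy hxy hx
          have h5 : (e, j) = (e', i') := Sum.inr_injective hx'
          obtain ⟨h6, h7⟩ := Prod.ext_iff.1 h5
          simp only at h6 h7
          subst h6 h7
          rcases hc' with ⟨d1, d2⟩ | ⟨d1, d2⟩ | ⟨j', d1, d2, d3⟩
          · rw [d1] at hy
            exact hold _ hy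
          · omega
          · rw [d2] at hy
            have h8 : (j : ℕ) ≤ j' := hjmin j' (Finset.mem_filter.2 ⟨Finset.mem_univ _, hy⟩)
            omega
        · -- the largest one
          have hik' : (k e : ℕ) < i := by
            have h3 : (i : ℕ) ≠ k e := by
              intro h3
              apply hk e
              rw [← Fin.ext h3]
              exact hy0
            omega
          obtain ⟨j, hj, hjmax⟩ := Finset.exists_max_image _ (fun j : Fin m => (j : ℕ)) hfin
          rw [Finset.mem_filter] at hj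
          have hji : (i : ℕ) ≤ j := hjmax i (Finset.mem_filter.2 ⟨Finset.mem_univ _, hy0⟩)
          by_cases hjm : (j : ℕ) + 1 = m
          · have hin : subE m E (Sum.inl e.1.1) (Sum.inr (e, j)) := ⟨rfl, hjm⟩
            refine ⟨Sum.inr (Sum.inl e.1.1), Or.inr ⟨_, ⟨Sum.inr (e, j), hj.2, hin⟩, rfl⟩, ?_⟩
            rintro ⟨⟨x, y⟩, ⟨hy, hxy⟩, hx⟩
            have hxe : x = Sum.inl e.1.1 := by
              rcases y with b' | ⟨e', i'⟩
              · rw [hφl] at hx
                exact Sum.inr_injective hx
              · rw [hφr] at hx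
                split_ifs at hx with h1
                · exact Sum.inr_injective hx
            subst hxe
            obtain ⟨e', i', hx', -⟩ := hchild _ y hy hxy hx
            exact Sum.inl_ne_inr hx'
          · have hjm' : (j : ℕ) + 1 < m := by
              have := j.2
              omega
            have hin : subE m E (Sum.inr (e, ⟨(j : ℕ) + 1, hjm'⟩)) (Sum.inr (e, j)) := ⟨rfl, Or.inr rfl⟩
            refine ⟨Sum.inr (Sum.inr (e, ⟨(j : ℕ) + 1, hjm'⟩)), Or.inr ⟨_, ⟨Sum.inr (e, j), hj.2,
              hin⟩, rfl⟩, ?_⟩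
            rintro ⟨⟨x, y⟩, ⟨hy, hxy⟩, hx⟩
            have hxe : x = Sum.inr (e, ⟨(j : ℕ) + 1, hjm'⟩) := by
              rcases y with b' | ⟨e', i'⟩
              · rw [hφl] at hx
                exact Sum.inr_injective hx
              · rw [hφr] at hx
                split_ifs at hx with h1
                · exact Sum.inr_injective hx
            subst hxe
            obtain ⟨e', i', hx', hc'⟩ := hchild _ y hy hxy hx
            have h5 : (e, (⟨(j : ℕ) + 1, hjm'⟩ : Fin m)) = (e', i') := Sum.inr_injective hx'
            obtain ⟨h6, h7⟩ := Prod.ext_iff.1 h5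
            simp only at h6 h7
            subst h6 h7
            rcases hc' with ⟨d1, d2⟩ | ⟨d1, d2⟩ | ⟨j', d1, d2, d3⟩
            · simp at d2
            · rw [d1] at hy
              have h8 : (j : ℕ) + 1 ≤ j := hjmax ⟨(j : ℕ) + 1, hjm'⟩
                (Finset.mem_filter.2 ⟨Finset.mem_univ _, hy⟩)
              omega
            · simp only at d1
              omega
  obtain ⟨t, ht, ht'⟩ := hmiss
  have hsub : φ '' Inc ⊆ (Sum.inl '' S ∪ Sum.inr '' N) \ {t} := by
    rintro z ⟨⟨x, y⟩, ⟨hy, hxy⟩, rfl⟩
    refine ⟨?_, ?_⟩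
    · rcases y with b | ⟨e, i⟩
      · rw [hφl]
        exact Or.inr ⟨x, ⟨_, hy, hxy⟩, rfl⟩
      · rw [hφr]
        split_ifs with h1
        · exact Or.inl ⟨_, hy, rfl⟩
        · exact Or.inr ⟨x, ⟨_, hy, hxy⟩, rfl⟩
    · intro hcon
      apply ht'
      rw [← Set.mem_singleton_iff.1 hcon]
      exact ⟨(x, y), ⟨hy, hxy⟩, rfl⟩
  have c1 := Set.ncard_le_ncard hsub (Set.toFinite _)
  rw [hinj.ncard_image] at c1
  have c2 := Set.ncard_sdiff_singleton_add_one ht (Set.toFinite _)
  have c3 : (Sum.inl '' S ∪ Sum.inr '' N : Set ((B ⊕ (E × Fin m)) ⊕ (A ⊕ (E × Fin m)))).ncard ≤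
      S.ncard + N.ncard := by
    refine (Set.ncard_union_le _ _).trans ?_
    rw [Set.ncard_image_of_injective _ Sum.inl_injective, Set.ncard_image_of_injective _ Sum.inr_injective]
  omega

/-- MODULE CSP (S). -/
theorem cstP_eval (F : FinField) (m : ℕ) : (cstP m).eval F.q = (cst (Nat.card F.K) m : ℤ) := by
  induction m with
  | zero => simp [cstP, cst]
  | succ m ih =>
    simp only [cstP, cst, Polynomial.eval_add, Polynomial.eval_mul, Polynomial.eval_pow, Polynomial.eval_X,
      Polynomial.eval_one, ih]
    unfold FinField.q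
    push_cast
    ring

/-- MODULE SBI (M). Every relation is `rel E`, `E` the finite set of its pairs (`hc R = hc (rel E)`). Strong induction on
`E.card` (for fixed `A`, `B`): with `m = g + 1` and `c = cst q m`, by `hom_subE` (and `plane_inc`)
`q^(m |E|) hc (rel E) = hc (subE m E) - ∑_(T ⊆ E, T ≠ E) (q^m)^|T| c^(|E| - |T|) hc (rel T)`. The first term is in the class
by `h`, `sub3_subE`, `sparse_subE`; the others by induction (`Sub3 (rel T)` for `T ⊆ E` since the degrees are
smaller). Use `sp_divq`, `sp_sub`, `sp_sum` (KGU/USp.lean), `Sp.mulp` with `(X^m)^|T| * cstP m ^ (|E|-|T|)`. -/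
theorem sparse_all {𝔅 : Set (FinField → ℤ)} (g : ℕ)
    (h : ∀ (A B : Type) [Fintype A] [Fintype B] (R : A → B → Prop), Sub3 R → Sparse g R → Sp 𝔅 (hc R))
    (A B : Type) [Fintype A] [Fintype B] (R : A → B → Prop) (hR : Sub3 R) : Sp 𝔅 (hc R) := by
  classical
  have hmono : ∀ T E : Finset (A × B), T ⊆ E → Sub3 (rel E) → Sub3 (rel T) := by
    intro T E hTE hE
    refine ⟨fun a => le_trans ?_ (hE.1 a), fun b => le_trans ?_ (hE.2 b)⟩
    · exact Set.ncard_le_ncard (fun b hb => hTE hb) (Set.toFinite _)
    · exact Set.ncard_le_ncard (fun b hb => hTE hb) (Set.toFinite _)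
  have key : ∀ n : ℕ, ∀ E : Finset (A × B), E.card = n → Sub3 (rel E) → Sp 𝔅 (hc (rel E)) := by
    intro n
    induction n using Nat.strong_induction_on with
    | _ n ih =>
      intro E hn hE
      have hsp : Sp 𝔅 (hc (subE (g + 1) E)) :=
        h _ _ _ (sub3_subE (g + 1) (by omega) E hE) (sparse_subE (g + 1) g (Nat.lt_succ_self g) E)
      have hrest : Sp 𝔅 fun F => ∑ T ∈ E.powerset.erase E,
          ((Polynomial.X ^ (g + 1)) ^ T.card * cstP (g + 1) ^ (E.card - T.card) : Polynomial ℤ).eval F.q *
            hc (rel T) F := by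
        refine sp_sum _ _ fun T hT => ?_
        rw [Finset.mem_erase, Finset.mem_powerset] at hT
        have hlt : T.card < n := by
          rw [← hn]
          exact Finset.card_lt_card (Finset.ssubset_iff_subset_ne.2 ⟨hT.2, hT.1⟩)
        exact Sp.mulp _ (ih T.card hlt T rfl (hmono T E hT.2 hE))
      refine sp_divq ((g + 1) * E.card) (sp_congr (sp_sub hsp hrest) fun F => ?_)
      have h1 := hom_subE (plane_inc F.K) (g + 1) (by omega) E
      have h2 : (hc (subE (g + 1) E) F : ℤ) = ∑ T ∈ E.powerset,
          ((Polynomial.X ^ (g + 1)) ^ T.card * cstP (g + 1) ^ (E.card - T.card) : Polynomial ℤ).eval F.q *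
            hc (rel T) F := by
        unfold hc
        rw [h1]
        push_cast
        refine Finset.sum_congr rfl fun T _ => ?_
        rw [Polynomial.eval_mul, Polynomial.eval_pow, Polynomial.eval_pow, Polynomial.eval_pow,
          Polynomial.eval_X, cstP_eval]
        rfl
      rw [h2, ← Finset.add_sum_erase _ _ (Finset.mem_powerset_self E), Nat.sub_self, pow_zero, mul_one,
        Polynomial.eval_pow, Polynomial.eval_pow, Polynomial.eval_X, ← pow_mul]
      ring
  have hR' : rel (Finset.univ.filter fun x : A × B => R x.1 x.2) = R := by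
    funext a b
    unfold rel
    simp
  have h1 := key _ (Finset.univ.filter fun x : A × B => R x.1 x.2) rfl (by rw [hR']; exact hR)
  rw [hR'] at h1
  exact h1

end Pool.Agent.Ptl
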