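import Pool.Agent.Ptl.Spl
import Pool.Agent.Ptl.Sub
import Pool.Agent.Ptl.Pen
import Pool.Agent.Ptl.Non
import Pool.Agent.Ptl.Gad
import Pool.Agent.KGU.Final
import Pool.Agent.HGC.Poly

/-!
# Scheme counts are approximated by counts of points and lines
-/

set_option autoImplicit false

open scoped BigOperators

namespace Pool.Agent.Ptl

open Pool.Agent.KG Pool.Agent.KGU Pool.Agent.HGC Pool.Agent.HGM Pool.Agent.GPM

/-- Every incidence pattern is in the class generated by the sparse triple systems. -/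
theorem hc_mem (g : ℕ) (A B : Type) [Fintype A] [Fintype B] (R : A → B → Prop) : Sp (TS g) (hc R) :=
  sub3_all (fun A B _ _ R h3 => sparse_all (g + 2) (fun A B _ _ R h3 hs => pend_mem g A B R h3 hs) A B R h3)
    A B R

theorem gad_mem (g : ℕ) {V J : Type} [Fintype V] [Fintype J] (G : Gadget V J) :
    Sp (TS g) fun F => (gadCount G F.K : ℤ) := by
  have h1 := pc_mem (hc_mem g) {t | CC G t} {t | NN t}
  refine Sp.div ((Polynomial.X ^ 3 - Polynomial.C 1) * (Polynomial.X ^ 1 * (Polynomial.X ^ 2 - Polynomial.C 1)) *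
    (Polynomial.X ^ 2 * (Polynomial.X ^ 1 - Polynomial.C 1))) ?_ ?_
  · exact (((Polynomial.monic_X_pow_sub_C 1 (by norm_num)).mul ((Polynomial.monic_X_pow 1).mul
      (Polynomial.monic_X_pow_sub_C 1 (by norm_num)))).mul ((Polynomial.monic_X_pow 2).mul
      (Polynomial.monic_X_pow_sub_C 1 (by norm_num))))
  · refine sp_congr (Sp.mulp (Polynomial.X - Polynomial.C 1) h1) fun F => ?_
    have h2 := pc_gad (K := F.K) G
    have h3 := card_gl3 F
    have h4 : 1 ≤ Nat.card F.K := Nat.card_pos
    have h5 : ((Nat.card F.K : ℤ) - 1) * (pc (inc F.K) {t | CC G t} {t | NN t} : ℤ) =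
        (Nat.card (GL (Fin 3) F.K) : ℤ) * (gadCount G F.K : ℤ) := by
      have := congrArg (fun n : ℕ => (n : ℤ)) h2
      push_cast [Nat.cast_sub h4] at this
      exact this
    simp only [Polynomial.eval_sub, Polynomial.eval_mul, Polynomial.eval_pow, Polynomial.eval_X,
      Polynomial.eval_C]
    rw [show F.q - 1 = (Nat.card F.K : ℤ) - 1 from rfl, h5, h3]
    ring

theorem aff_mem (g : ℕ) {n m : ℕ} (P : Fin m → MvPolynomial (Fin n) ℤ) :
    Sp (TS g) fun F => (affCount P F.K : ℤ) := by
  obtain ⟨V, J, _, _, G, hG⟩ := exists_gadget P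
  exact sp_congr (gad_mem g G) fun F => by rw [hG F.K]

theorem bd_ts {g : ℕ} (C : TripleSystem g) : Bd C.count := bd_of_le _ fun K _ _ => cnt_le C K

/-- The affine scheme counts are approximated by the numbers of configurations of points and lines. -/
theorem hg_ts (g n m : ℕ) (P : Fin m → MvPolynomial (Fin n) ℤ) :
    InB (fun C : TripleSystem g => C.count) (countPF (affCount P)) := by
  refine InB.congr (fun p r _ => toPF_aff P p r) (inB_of_sp (fun C => bd_ts C) ?_ (aff_mem g P))
  rintro f ⟨C, rfl⟩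
  exact ⟨C, fun p r _ => by
    simp only [toPF, TripleSystem.count, countPF]
    push_cast
    rfl⟩

end Pool.Agent.Ptl
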