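import Pool.Agent.Ptl.Defs

/-! # The projective plane over a finite field; symmetry and isomorphism -/

set_option autoImplicit false

open scoped BigOperators LinearAlgebra.Projectivization

namespace Pool.Agent.Ptl

open Pool.Agent.KG Pool.Agent.HGC

/-- MODULE PLF (M). Mathlib: `Projectivization.card_of_finrank` gives `Nat.card (ℙ K (Fin 3 → K)) = 1 + q + q^2`.
`Configuration.ofField` (file Mathlib/Combinatorics/Configuration.lean) makes `ℙ K (Fin 3 → K)` with
`p ∈ l ↔ orthogonal p l` a `Configuration.ProjectivePlane` (`classical` for the `DecidableEq`), so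
`Configuration.ProjectivePlane.card_points` gives `order ^ 2 + order + 1` points, hence `order = q`;
`lineCount_eq`, `pointCount_eq` give `lines`, `points`; `mkLine_ax`, `mkPoint_ax` and
`Configuration.Nondegenerate.eq_or_eq` give `line` and `point`. (Or everything directly with the cross product.) -/
theorem plane_inc (K : Type) [Field K] [Finite K] : Plane (inc K) (Nat.card K) := by
  classical
  have hfK : Fintype K := Fintype.ofFinite K
  have hfP : Finite (ℙ K (Fin 3 → K)) := inferInstance
  have hfT : Fintype (ℙ K (Fin 3 → K)) := Fintype.ofFinite _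
  have hcard : Nat.card (ℙ K (Fin 3 → K)) = Nat.card K ^ 2 + Nat.card K + 1 := by
    rw [Projectivization.card_of_finrank K (Fin 3 → K) (n := 3) (by simp)]
    simp only [Finset.sum_range_succ, Finset.sum_range_zero, pow_zero, pow_one, zero_add]
    ring
  have hord : Configuration.ProjectivePlane.order (ℙ K (Fin 3 → K)) (ℙ K (Fin 3 → K)) =
      Nat.card K := by
    have h1 := Configuration.ProjectivePlane.card_points (ℙ K (Fin 3 → K)) (ℙ K (Fin 3 → K))
    rw [← Nat.card_eq_fintype_card, hcard] at h1
    rcases lt_trichotomy (Configuration.ProjectivePlane.order (ℙ K (Fin 3 → K))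
      (ℙ K (Fin 3 → K))) (Nat.card K) with h | h | h
    · nlinarith
    · exact h
    · nlinarith
  refine ⟨hfP, hfP, hcard, hcard, fun p => ?_, fun l => ?_, fun p p' hp => ?_, fun l l' hl => ?_⟩
  · rw [← hord]
    exact Configuration.ProjectivePlane.lineCount_eq (ℙ K (Fin 3 → K)) p
  · rw [← hord]
    exact Configuration.ProjectivePlane.pointCount_eq (ℙ K (Fin 3 → K)) l
  · obtain ⟨l, hl, hu⟩ := Configuration.HasLines.existsUnique_line (ℙ K (Fin 3 → K))
      (ℙ K (Fin 3 → K)) p p' hp
    rw [Nat.card_eq_one_iff_exists]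
    exact ⟨⟨l, hl⟩, fun y => Subtype.ext (hu y.1 y.2)⟩
  · obtain ⟨p, hp, hu⟩ := Configuration.HasPoints.existsUnique_point (ℙ K (Fin 3 → K))
      (ℙ K (Fin 3 → K)) l l' hl
    rw [Nat.card_eq_one_iff_exists]
    exact ⟨⟨p, hp⟩, fun y => Subtype.ext (hu y.1 y.2)⟩

/-- MODULE SWA (S). -/
theorem Plane.swap {P L : Type} {I : P → L → Prop} {q : ℕ} (h : Plane I q) : Plane (fun l p => I p l) q := by
  exact ⟨h.fl, h.fp, h.cl, h.cp, h.points, h.lines, h.point, h.line⟩

/-- MODULE SWB (S). Exchange the two components. -/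
theorem hom_swap {A B P L : Type} (I : P → L → Prop) (R : A → B → Prop) :
    hom I R = hom (fun l p => I p l) (fun b a => R a b) := by
  unfold hom
  exact Nat.card_congr ((Equiv.prodComm (A → P) (B → L)).subtypeEquiv fun x =>
    ⟨fun h b a hab => h a b hab, fun h a b hab => h b a hab⟩)

/-- MODULE SWC (S). `hom_swap` and `Projectivization.orthogonal_comm`. -/
theorem hc_swap {A B : Type} (R : A → B → Prop) (F : FinField) : hc R F = hc (fun b a => R a b) F := by
  have h1 : (fun l p : ℙ F.K (Fin 3 → F.K) => inc F.K p l) = inc F.K := by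
    funext l p
    exact propext Projectivization.orthogonal_comm
  unfold hc
  rw [hom_swap (inc F.K) R, h1]

/-- MODULE SWD (S). `Equiv.arrowCongr`. -/
theorem hom_iso {A B A' B' P L : Type} (I : P → L → Prop) (R : A → B → Prop) (R' : A' → B' → Prop) (e : A ≃ A')
    (f : B ≃ B') (h : ∀ a b, R a b ↔ R' (e a) (f b)) : hom I R = hom I R' := by
  unfold hom
  refine Nat.card_congr ((Equiv.prodCongr (Equiv.arrowCongr e (Equiv.refl P))
    (Equiv.arrowCongr f (Equiv.refl L))).subtypeEquiv fun x => ?_)
  constructor
  · intro hx a' b' hab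
    have h1 := (h (e.symm a') (f.symm b')).mpr (by
      rw [e.apply_symm_apply, f.apply_symm_apply]
      exact hab)
    exact hx _ _ h1
  · intro hx a b hab
    have h1 : I (x.1 (e.symm (e a))) (x.2 (f.symm (f b))) := hx (e a) (f b) ((h a b).mp hab)
    rw [e.symm_apply_apply, f.symm_apply_apply] at h1
    exact h1

end Pool.Agent.Ptl
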