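import Pool.Agent.Ptl.Pl
import Pool.Agent.KGU.USp

/-! # Splitting points and lines: degrees at most three -/

set_option autoImplicit false

open scoped BigOperators LinearAlgebra.Projectivization

namespace Pool.Agent.Ptl

open Pool.Agent.KG Pool.Agent.HGC Pool.Agent.KGU

/-- MODULE SPL (M). The solutions of `splitJ R a0 S` are pairs of a solution `(x, y)` of `splitU R a0 S` and a
line `y none` through the two points `x none` and `x (some a0)`: the number of these lines is `1` if
`x none ≠ x (some a0)` and `q + 1` if they are equal, i.e. it is `1 + q [x none = x (some a0)]`. The solutions of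
`splitU R a0 S` with `x none = x (some a0)` correspond to the solutions of `R` (restrict `x` to `some`). -/
theorem hom_split {A B P L : Type} [Finite A] [Finite B] {I : P → L → Prop} {q : ℕ} (hP : Plane I q)
    (R : A → B → Prop) (a0 : A) (S : Set B) :
    hom I (splitJ R a0 S) = q * hom I R + hom I (splitU R a0 S) := by
  classical
  have hfP := hP.fp
  have hfL := hP.fl
  let Z := {z : (Option A → P) × (B → L) // ∀ a b, splitU R a0 S a b → I (z.1 a) (z.2 b)}
  have hZ : Fintype Z := Fintype.ofFinite Z
  let e : {x : (Option A → P) × (Option B → L) // ∀ a b, splitJ R a0 S a b → I (x.1 a) (x.2 b)} ≃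
      Σ z : Z, {l // I (z.1.1 none) l ∧ I (z.1.1 (some a0)) l} :=
    { toFun := fun x => ⟨⟨(x.1.1, fun b => x.1.2 (some b)), by
          rintro (_ | a) b h
          · exact x.2 none (some b) h
          · exact x.2 (some a) (some b) h⟩,
        ⟨x.1.2 none, x.2 none none trivial, x.2 (some a0) none rfl⟩⟩
      invFun := fun z => ⟨(z.1.1.1, fun b => Option.elim b z.2.1 z.1.1.2), by
        rintro (_ | a) (_ | b) h
        · exact z.2.2.1
        · exact z.1.2 none b h
        · have h1 : a = a0 := h
          subst h1
          exact z.2.2.2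
        · exact z.1.2 (some a) b h⟩
      left_inv := by
        rintro ⟨⟨x, y⟩, h⟩
        apply Subtype.ext
        refine Prod.ext rfl ?_
        funext b
        rcases b with _ | b <;> rfl
      right_inv := by
        rintro ⟨⟨⟨x, y⟩, h⟩, w⟩
        rfl }
  have h1 : ∀ z : Z, Nat.card {l // I (z.1.1 none) l ∧ I (z.1.1 (some a0)) l} =
      1 + if z.1.1 none = z.1.1 (some a0) then q else 0 := by
    intro z
    by_cases hz : z.1.1 none = z.1.1 (some a0)
    · rw [if_pos hz, hz, add_comm, ← hP.lines (z.1.1 (some a0))]
      exact Nat.card_congr (Equiv.subtypeEquivRight fun l => and_self_iff)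
    · rw [if_neg hz, hP.line _ _ hz]
  have h2 : Nat.card {z : Z // z.1.1 none = z.1.1 (some a0)} = hom I R := by
    refine Nat.card_congr
      { toFun := fun z => ⟨(fun a => z.1.1.1 (some a), z.1.1.2), ?_⟩
        invFun := fun x => ⟨⟨(fun a => Option.elim a (x.1.1 a0) x.1.1, x.1.2), ?_⟩, rfl⟩
        left_inv := ?_
        right_inv := ?_ }
    · intro a b hab
      by_cases h3 : a = a0 ∧ b ∈ S
      · have h4 := z.1.2 none b ⟨h3.1 ▸ hab, h3.2⟩
        rw [z.2] at h4
        rw [h3.1]
        exact h4
      · exact z.1.2 (some a) b ⟨hab, h3⟩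
    · rintro (_ | a) b h
      · exact x.2 a0 b h.1
      · exact x.2 a b h.1
    · rintro ⟨⟨⟨x, y⟩, h⟩, h'⟩
      apply Subtype.ext
      apply Subtype.ext
      refine Prod.ext ?_ rfl
      funext a
      rcases a with _ | a
      · exact h'.symm
      · rfl
    · rintro ⟨⟨x, y⟩, h⟩
      rfl
  rw [hom, Nat.card_congr e, Nat.card_sigma, Finset.sum_congr rfl fun z _ => h1 z, Finset.sum_add_distrib,
    Finset.sum_const, smul_eq_mul, mul_one, ← Finset.sum_filter, Finset.sum_const, smul_eq_mul, ← h2,
    Nat.card_eq_fintype_card, Fintype.card_subtype, add_comm, mul_comm, Finset.card_univ,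
    ← Nat.card_eq_fintype_card]
  rfl

private theorem EXJ_dA {A B : Type} [Finite A] [Finite B] (R : A → B → Prop) (a0 : A) (S : Set B)
    (hS : ∀ b ∈ S, R a0 b) (h2 : S.ncard = 2) (a : A) :
    {b | R a b ∧ ¬ (a = a0 ∧ b ∈ S)}.ncard ≤ dA R a ∧
      (a = a0 → {b | R a b ∧ ¬ (a = a0 ∧ b ∈ S)}.ncard + 2 = dA R a) := by
  refine ⟨Set.ncard_le_ncard (fun b hb => hb.1) (Set.toFinite _), ?_⟩
  rintro rfl
  have h3 : {b | R a b ∧ ¬ (a = a ∧ b ∈ S)} = {b | R a b} \ S := by
    ext b
    simp
  rw [h3, ← h2]
  exact Set.ncard_sdiff_add_ncard_of_subset hS (Set.toFinite _)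

private theorem EXJ_dB {A B : Type} [Finite A] [Finite B] (R : A → B → Prop) (a0 : A) (S : Set B)
    (hS : ∀ b ∈ S, R a0 b) (b : B) : dB (splitU R a0 S) b = dB R b := by
  classical
  by_cases hb : b ∈ S
  · have h1 : {x : Option A | splitU R a0 S x b} = insert none (some '' ({a | R a b} \ {a0})) := by
      ext x
      rcases x with _ | a
      · simp only [Set.mem_insert_iff, true_or, iff_true]
        exact ⟨hS b hb, hb⟩
      · simp only [Set.mem_insert_iff, reduceCtorEq, false_or, Set.mem_image, Option.some.injEq,
          exists_eq_right]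
        constructor
        · intro h
          exact ⟨h.1, fun h' => h.2 ⟨h', hb⟩⟩
        · intro h
          exact ⟨h.1, fun h' => h.2 h'.1⟩
    rw [dB, h1, Set.ncard_insert_of_notMem (by simp) (Set.toFinite _),
      Set.ncard_image_of_injective _ (Option.some_injective A)]
    have h2 : a0 ∈ {a | R a b} := hS b hb
    rw [Set.ncard_sdiff_singleton_add_one h2 (Set.toFinite _)]
    rfl
  · have h1 : {x : Option A | splitU R a0 S x b} = some '' {a | R a b} := by
      ext x
      rcases x with _ | a
      · simp only [Set.mem_image, reduceCtorEq, and_false, exists_false, iff_false]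
        intro h
        exact hb h.2
      · simp only [Set.mem_image, Option.some.injEq, exists_eq_right]
        constructor
        · intro h
          exact h.1
        · intro h
          exact ⟨h, fun h' => hb h'.2⟩
    rw [dB, h1, Set.ncard_image_of_injective _ (Option.some_injective A)]
    rfl

/-- MODULE EXJ (M). Degrees in `splitJ R a0 S`: the point `none` has degree `3` (the two lines of `S` and the new
line), the point `a0` has degree `dA R a0 - 1`, the other points have the same degree as before; the line `none`
has degree `2`, the other lines have the same degree as before (for `b ∈ S` the point `a0` is replaced by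
`none`). -/
theorem exc_splitJ {A B : Type} [Fintype A] [Fintype B] (R : A → B → Prop) (a0 : A) (S : Set B)
    (hS : ∀ b ∈ S, R a0 b) (h2 : S.ncard = 2) (h4 : 4 ≤ dA R a0) : exc (splitJ R a0 S) < exc R := by
  classical
  have hA : ∀ a, dA (splitJ R a0 S) (some a) ≤ dA R a ∧ (a = a0 → dA (splitJ R a0 S) (some a) + 1 = dA R a) := by
    intro a
    have h5 := EXJ_dA R a0 S hS h2 a
    by_cases ha : a = a0
    · have h6 : {y : Option B | splitJ R a0 S (some a) y} =
          insert none (some '' {b | R a b ∧ ¬ (a = a0 ∧ b ∈ S)}) := by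
        ext y
        rcases y with _ | b
        · simp only [Set.mem_insert_iff, true_or, iff_true]
          exact ha
        · simp only [Set.mem_insert_iff, reduceCtorEq, false_or, Set.mem_image, Option.some.injEq,
            exists_eq_right]
          exact Iff.rfl
      have h7 : dA (splitJ R a0 S) (some a) = {b | R a b ∧ ¬ (a = a0 ∧ b ∈ S)}.ncard + 1 := by
        rw [dA, h6, Set.ncard_insert_of_notMem (by simp) (Set.toFinite _),
          Set.ncard_image_of_injective _ (Option.some_injective B)]
      have h8 := h5.2 ha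
      constructor
      · omega
      · intro _
        omega
    · have h6 : {y : Option B | splitJ R a0 S (some a) y} = some '' {b | R a b ∧ ¬ (a = a0 ∧ b ∈ S)} := by
        ext y
        rcases y with _ | b
        · simp only [Set.mem_image, reduceCtorEq, and_false, exists_false, iff_false]
          exact ha
        · simp only [Set.mem_image, Option.some.injEq, exists_eq_right]
          exact Iff.rfl
      have h7 : dA (splitJ R a0 S) (some a) = {b | R a b ∧ ¬ (a = a0 ∧ b ∈ S)}.ncard := by
        rw [dA, h6, Set.ncard_image_of_injective _ (Option.some_injective B)]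
      exact ⟨h7 ▸ h5.1, fun h => absurd h ha⟩
  have hn : dA (splitJ R a0 S) none = 3 := by
    have h6 : {y : Option B | splitJ R a0 S none y} = insert none (some '' S) := by
      ext y
      rcases y with _ | b
      · simp only [Set.mem_insert_iff, true_or, iff_true]
        exact trivial
      · simp only [Set.mem_insert_iff, reduceCtorEq, false_or, Set.mem_image, Option.some.injEq,
          exists_eq_right]
        exact ⟨fun h => h.2, fun h => ⟨hS b h, h⟩⟩
    rw [dA, h6, Set.ncard_insert_of_notMem (by simp) (Set.toFinite _),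
      Set.ncard_image_of_injective _ (Option.some_injective B), h2]
  have hbn : dB (splitJ R a0 S) none = 2 := by
    have h6 : {x : Option A | splitJ R a0 S x none} = {none, some a0} := by
      ext x
      rcases x with _ | a
      · simp only [Set.mem_insert_iff, true_or, iff_true]
        exact trivial
      · simp only [Set.mem_insert_iff, reduceCtorEq, false_or, Set.mem_singleton_iff, Option.some.injEq]
        exact Iff.rfl
    rw [dB, h6, Set.ncard_pair (by simp)]
  have hB : ∀ b, dB (splitJ R a0 S) (some b) = dB R b := by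
    intro b
    rw [← EXJ_dB R a0 S hS b, dB, dB]
    congr 1
    ext x
    rcases x with _ | a <;> exact Iff.rfl
  have h5 : ∑ a, (dA (splitJ R a0 S) (some a) - 3) < ∑ a, (dA R a - 3) := by
    refine Finset.sum_lt_sum (fun a _ => Nat.sub_le_sub_right (hA a).1 3) ⟨a0, Finset.mem_univ _, ?_⟩
    have := (hA a0).2 rfl
    omega
  simp only [exc, Fintype.sum_option, hn, hbn, hB]
  omega

/-- MODULE EXU (M). Degrees in `splitU R a0 S`: the point `none` has degree `2`, `a0` has degree `dA R a0 - 2`, all
the other degrees are as before. -/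
theorem exc_splitU {A B : Type} [Fintype A] [Fintype B] (R : A → B → Prop) (a0 : A) (S : Set B)
    (hS : ∀ b ∈ S, R a0 b) (h2 : S.ncard = 2) (h4 : 4 ≤ dA R a0) : exc (splitU R a0 S) < exc R := by
  classical
  have hA : ∀ a, dA (splitU R a0 S) (some a) ≤ dA R a ∧ (a = a0 → dA (splitU R a0 S) (some a) + 2 = dA R a) :=
    fun a => EXJ_dA R a0 S hS h2 a
  have hn : dA (splitU R a0 S) none = 2 := by
    have h6 : {b : B | splitU R a0 S none b} = S := by
      ext b
      exact ⟨fun h => h.2, fun h => ⟨hS b h, h⟩⟩
    rw [dA, h6, h2]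
  have h5 : ∑ a, (dA (splitU R a0 S) (some a) - 3) < ∑ a, (dA R a - 3) := by
    refine Finset.sum_lt_sum (fun a _ => Nat.sub_le_sub_right (hA a).1 3) ⟨a0, Finset.mem_univ _, ?_⟩
    have := (hA a0).2 rfl
    omega
  simp only [exc, Fintype.sum_option, hn, EXJ_dB R a0 S hS]
  omega

/-- MODULE EXS (S). -/
theorem exc_swap {A B : Type} [Fintype A] [Fintype B] (R : A → B → Prop) : exc (fun b a => R a b) = exc R := by
  rw [exc, exc, add_comm]
  rfl

private theorem CUB_step {𝔅 : Set (FinField → ℤ)} {A B : Type} [Fintype A] [Fintype B] (R : A → B → Prop)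
    (a0 : A) (h4 : 4 ≤ dA R a0)
    (ih : ∀ (A' B' : Type) [Fintype A'] [Fintype B'] (R' : A' → B' → Prop), exc R' < exc R → Sp 𝔅 (hc R')) :
    Sp 𝔅 (hc R) := by
  obtain ⟨S, hS, h2⟩ := Set.exists_subset_card_eq (s := {b | R a0 b}) (n := 2) (by
    change 2 ≤ dA R a0
    omega)
  have h5 := ih _ _ _ (exc_splitJ R a0 S hS h2 h4)
  have h6 := ih _ _ _ (exc_splitU R a0 S hS h2 h4)
  refine sp_divq 1 (sp_congr (sp_sub h5 h6) fun F => ?_)
  have h7 := hom_split (plane_inc F.K) R a0 S
  simp only [hc, FinField.q]
  rw [h7]
  push_cast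
  ring

/-- MODULE CUB (S). Strong induction on `exc R` (for all `A`, `B`, `R` together). If all degrees are at most `3`, use `h`.
If some `a0` has `4 ≤ dA R a0`, choose two lines `S` through it (`Set.exists_subset_card_eq` or similar); by
`hom_split` (with `plane_inc`) `q * hc R = hc (splitJ R a0 S) - hc (splitU R a0 S)`; use `sp_divq 1`, `sp_sub`
(KGU/USp.lean) and the induction hypothesis. If some `b0` has `4 ≤ dB R b0`, do the same for the exchanged
relation `fun b a => R a b` (whose `dA` is the `dB` of `R`) and use `hc_swap`, `exc_swap`. -/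
theorem sub3_all {𝔅 : Set (FinField → ℤ)}
    (h : ∀ (A B : Type) [Fintype A] [Fintype B] (R : A → B → Prop), Sub3 R → Sp 𝔅 (hc R))
    (A B : Type) [Fintype A] [Fintype B] (R : A → B → Prop) : Sp 𝔅 (hc R) := by
  have key : ∀ (n : ℕ) (A B : Type) [Fintype A] [Fintype B] (R : A → B → Prop), exc R = n → Sp 𝔅 (hc R) := by
    intro n
    induction n using Nat.strong_induction_on with
    | _ n ih =>
      intro A B _ _ R hn
      have ih' : ∀ (A' B' : Type) [Fintype A'] [Fintype B'] (R' : A' → B' → Prop), exc R' < exc R →
          Sp 𝔅 (hc R') := fun A' B' _ _ R' h' => ih _ (hn ▸ h') A' B' R' rfl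
      by_cases h3 : Sub3 R
      · exact h A B R h3
      · rw [Sub3, not_and_or] at h3
        push Not at h3
        rcases h3 with ⟨a0, h4⟩ | ⟨b0, h4⟩
        · exact CUB_step R a0 h4 ih'
        · refine sp_congr (CUB_step (fun b a => R a b) b0 h4 ?_) fun F => (hc_swap R F).symm
          intro A' B' _ _ R' h'
          rw [exc_swap R] at h'
          exact ih' A' B' R' h'
  exact key _ A B R rfl

end Pool.Agent.Ptl
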