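import Pool.Agent.Ptl.Defs

/-! # Vectors -/

set_option autoImplicit false

open scoped BigOperators LinearAlgebra.Projectivization Matrix

namespace Pool.Agent.Ptl

open Pool.Agent.KG Pool.Agent.HGC

/-- MODULE COL (S). A line through the three points is a nonzero vector `w` with `x ⬝ᵥ w = y ⬝ᵥ w = z ⬝ᵥ w = 0`, i.e.
in the kernel of the matrix with rows `x, y, z` (`Matrix.exists_mulVec_eq_zero_iff`). -/
theorem col_iff {K : Type} [Field K] (x y z : Fin 3 → K) (hx : x ≠ 0) (hy : y ≠ 0) (hz : z ≠ 0) :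
    Col (inc K) (Projectivization.mk K x hx) (Projectivization.mk K y hy) (Projectivization.mk K z hz) ↔
      D3 x y z = 0 := by
  have h0 : D3 x y z = 0 ↔ ∃ v : Fin 3 → K, v ≠ 0 ∧ (Matrix.of ![x, y, z]) *ᵥ v = 0 := by
    unfold D3
    exact Matrix.exists_mulVec_eq_zero_iff.symm
  have h1 : ∀ v : Fin 3 → K, (Matrix.of ![x, y, z]) *ᵥ v = 0 ↔ x ⬝ᵥ v = 0 ∧ y ⬝ᵥ v = 0 ∧ z ⬝ᵥ v = 0 := by
    intro v
    constructor
    · intro h
      exact ⟨congrFun h 0, congrFun h 1, congrFun h 2⟩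
    · rintro ⟨a, b, c⟩
      ext i
      fin_cases i
      · exact a
      · exact b
      · exact c
  rw [h0]
  constructor
  · rintro ⟨l, ha, hb, hc⟩
    induction l with | h v hv =>
    exact ⟨v, hv, (h1 v).2 ⟨ha, hb, hc⟩⟩
  · rintro ⟨v, hv, h⟩
    obtain ⟨a, b, c⟩ := (h1 v).1 h
    exact ⟨Projectivization.mk K v hv, a, b, c⟩

/-- MODULE VEC (M). Every point of the projective plane is the class of `q - 1` nonzero vectors, so a family of
points is the class of `(q - 1) ^ |W|` families of nonzero vectors; the conditions agree by `col_iff`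
(`Projectivization.nonZeroEquivProjectivizationProdUnits` or directly: the vectors with class `p` are the
`c • p.rep`, `c : Kˣ`). -/
theorem vec_count {K W : Type} [Field K] [Finite K] [Fintype W] (C N : Set (W × W × W)) :
    Nat.card {x : W → Fin 3 → K // VC C N x} = (Nat.card K - 1) ^ Fintype.card W * pc (inc K) C N := by
  classical
  -- every nonzero vector is a multiple of the representative of its point
  have hb : Function.Bijective (fun p : (ℙ K (Fin 3 → K)) × Kˣ =>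
      (⟨(p.2 : K) • p.1.rep, smul_ne_zero (Units.ne_zero _) p.1.rep_nonzero⟩ : {v : Fin 3 → K // v ≠ 0})) := by
    constructor
    · rintro ⟨p, a⟩ ⟨p', a'⟩ h
      have h1 : (a : K) • p.rep = (a' : K) • p'.rep := congrArg Subtype.val h
      have hp : p = p' := by
        have h2 : Projectivization.mk K ((a : K) • p.rep) (smul_ne_zero (Units.ne_zero _) p.rep_nonzero) =
            Projectivization.mk K ((a' : K) • p'.rep) (smul_ne_zero (Units.ne_zero _) p'.rep_nonzero) := by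
          congr 1
        have h3 : ∀ (p : ℙ K (Fin 3 → K)) (a : Kˣ), Projectivization.mk K ((a : K) • p.rep)
            (smul_ne_zero (Units.ne_zero _) p.rep_nonzero) = p := by
          intro p a
          conv_rhs => rw [← p.mk_rep]
          rw [Projectivization.mk_eq_mk_iff]
          exact ⟨a, rfl⟩
        rw [h3, h3] at h2
        exact h2
      subst hp
      refine Prod.ext rfl (Units.ext ?_)
      exact smul_left_injective K p.rep_nonzero h1
    · rintro ⟨v, hv⟩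
      obtain ⟨a, ha⟩ := Projectivization.exists_smul_eq_mk_rep K v hv
      refine ⟨(Projectivization.mk K v hv, a⁻¹), Subtype.ext ?_⟩
      show ((a⁻¹ : Kˣ) : K) • (Projectivization.mk K v hv).rep = v
      rw [← ha]
      show ((a⁻¹ : Kˣ) : K) • ((a : K) • v) = v
      rw [smul_smul, Units.inv_mul, one_smul]
  have hmk : ∀ (p : ℙ K (Fin 3 → K)) (a : Kˣ), Projectivization.mk K ((a : K) • p.rep)
      (smul_ne_zero (Units.ne_zero _) p.rep_nonzero) = p := by
    intro p a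
    conv_rhs => rw [← p.mk_rep]
    rw [Projectivization.mk_eq_mk_iff]
    exact ⟨a, rfl⟩
  have hcol : ∀ (x : W → ℙ K (Fin 3 → K)) (a : W → Kˣ) (i j k : W),
      Col (inc K) (x i) (x j) (x k) ↔ D3 ((a i : K) • (x i).rep) ((a j : K) • (x j).rep) ((a k : K) • (x k).rep) = 0 := by
    intro x a i j k
    rw [← col_iff _ _ _ (smul_ne_zero (Units.ne_zero _) (x i).rep_nonzero)
      (smul_ne_zero (Units.ne_zero _) (x j).rep_nonzero) (smul_ne_zero (Units.ne_zero _) (x k).rep_nonzero),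
      hmk, hmk, hmk]
  let f : (W → Kˣ) × {x : W → ℙ K (Fin 3 → K) // (∀ t ∈ C, Col (inc K) (x t.1) (x t.2.1) (x t.2.2)) ∧
      ∀ t ∈ N, ¬ Col (inc K) (x t.1) (x t.2.1) (x t.2.2)} → {x : W → Fin 3 → K // VC C N x} := fun p =>
    ⟨fun w => (p.1 w : K) • (p.2.1 w).rep, fun w => smul_ne_zero (Units.ne_zero _) (p.2.1 w).rep_nonzero,
      fun t ht => (hcol p.2.1 p.1 _ _ _).1 (p.2.2.1 t ht), fun t ht h => p.2.2.2 t ht ((hcol p.2.1 p.1 _ _ _).2 h)⟩
  have hf : Function.Bijective f := by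
    constructor
    · rintro ⟨a, x, hx⟩ ⟨a', x', hx'⟩ h
      have h1 : ∀ w, (a w : K) • (x w).rep = (a' w : K) • (x' w).rep := fun w => congrFun (congrArg Subtype.val h) w
      have h2 : ∀ w, (x w, a w) = (x' w, a' w) := fun w => hb.1 (Subtype.ext (h1 w))
      have h3 : a = a' := funext fun w => (Prod.mk.inj (h2 w)).2
      have h4 : x = x' := funext fun w => (Prod.mk.inj (h2 w)).1
      subst h3; subst h4; rfl
    · rintro ⟨x, hx⟩
      have h1 : ∀ w, ∃ p : (ℙ K (Fin 3 → K)) × Kˣ, (p.2 : K) • p.1.rep = x w := fun w => by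
        obtain ⟨p, hp⟩ := hb.2 ⟨x w, hx.1 w⟩
        exact ⟨p, congrArg Subtype.val hp⟩
      choose p hp using h1
      refine ⟨(fun w => (p w).2, ⟨fun w => (p w).1, fun t ht => ?_, fun t ht h => ?_⟩), Subtype.ext (funext hp)⟩
      · rw [hcol (fun w => (p w).1) (fun w => (p w).2), hp, hp, hp]
        exact hx.2.1 t ht
      · rw [hcol (fun w => (p w).1) (fun w => (p w).2), hp, hp, hp] at h
        exact hx.2.2 t ht h
  rw [← Nat.card_congr (Equiv.ofBijective f hf), Nat.card_prod, Nat.card_fun, Nat.card_units,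
    Nat.card_eq_fintype_card (α := W)]
  rfl

private theorem VCS_rows {K : Type} [Field K] (x y z : Fin 3 → K) (g : Matrix (Fin 3) (Fin 3) K) :
    D3 (x ᵥ* g) (y ᵥ* g) (z ᵥ* g) = D3 x y z * g.det := by
  unfold D3
  rw [← Matrix.det_mul]
  congr 1
  ext i j
  fin_cases i <;> simp [Matrix.mul_apply, Matrix.vecMul, dotProduct]

private theorem VCS_smul {K : Type} [Field K] (a b c : K) (x y z : Fin 3 → K) :
    D3 (a • x) (b • y) (c • z) = a * b * c * D3 x y z := by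
  simp only [D3, Matrix.det_fin_three]
  simp
  ring

/-- MODULE VCS (S). `D3 (a • (x ᵥ* g)) (b • (y ᵥ* g)) (c • (z ᵥ* g)) = a * b * c * det g * D3 x y z`. -/
theorem vc_scale {K W : Type} [Field K] (C N : Set (W × W × W)) (g : GL (Fin 3) K) (s : W → Kˣ)
    (x : W → Fin 3 → K) : VC C N (fun w => (s w : K) • (x w ᵥ* (g : Matrix (Fin 3) (Fin 3) K))) ↔ VC C N x := by
  have hg : (g : Matrix (Fin 3) (Fin 3) K).det ≠ 0 := by
    have := Matrix.GeneralLinearGroup.det g
    exact ((Matrix.isUnit_iff_isUnit_det _).1 g.isUnit).ne_zero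
  have h1 : ∀ a b c : W, D3 ((s a : K) • (x a ᵥ* (g : Matrix (Fin 3) (Fin 3) K)))
      ((s b : K) • (x b ᵥ* (g : Matrix (Fin 3) (Fin 3) K))) ((s c : K) • (x c ᵥ* (g : Matrix (Fin 3) (Fin 3) K))) = 0 ↔
      D3 (x a) (x b) (x c) = 0 := by
    intro a b c
    rw [VCS_smul, VCS_rows]
    simp [hg]
  have h2 : ∀ w, (s w : K) • (x w ᵥ* (g : Matrix (Fin 3) (Fin 3) K)) = 0 ↔ x w = 0 := by
    intro w
    rw [smul_eq_zero_iff_right (Units.ne_zero _)]
    constructor
    · intro h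
      have h5 := congrArg (fun v => v ᵥ* ((g⁻¹ : GL (Fin 3) K) : Matrix (Fin 3) (Fin 3) K)) h
      simp only [Matrix.vecMul_vecMul, Matrix.zero_vecMul] at h5
      rwa [← Units.val_mul, mul_inv_cancel, Units.val_one, Matrix.vecMul_one] at h5
    · intro h
      rw [h, Matrix.zero_vecMul]
  unfold VC
  simp only [ne_eq, h1, h2]

private theorem FRE_exp {K : Type} [Field K] (x y z : Fin 3 → K) :
    D3 x y z = x 0 * y 1 * z 2 - x 0 * y 2 * z 1 - x 1 * y 0 * z 2 + x 1 * y 2 * z 0 + x 2 * y 0 * z 1 -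
      x 2 * y 1 * z 0 := by
  simp [D3, Matrix.det_fin_three]

/-- MODULE FRE (M). By `h0` the vectors `x 0, x 1, x 2` are a basis, `x 3 = ∑ α i • x i`, and `α i ≠ 0` for `i = 2, 1, 0`
by `h1`, `h2`, `h3` (e.g. `D3 (x 0) (x 1) (x 3) = α 2 * D3 (x 0) (x 1) (x 2)`). The rows of `g` are `α i • x i` and
`c i = (α i)⁻¹`. Uniqueness: the rows `g i` of `g` satisfy `x i = c i • g i` and `x 3 = g 0 + g 1 + g 2`, so
`c i = (α i)⁻¹` by linear independence. -/
theorem frame_unique {K : Type} [Field K] (x : Fin 4 → Fin 3 → K) (h0 : D3 (x 0) (x 1) (x 2) ≠ 0)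
    (h1 : D3 (x 0) (x 1) (x 3) ≠ 0) (h2 : D3 (x 0) (x 2) (x 3) ≠ 0) (h3 : D3 (x 1) (x 2) (x 3) ≠ 0) :
    ∃! p : GL (Fin 3) K × (Fin 3 → Kˣ),
      (∀ i : Fin 3, x i.castSucc = (p.2 i : K) • (std K i.castSucc ᵥ* (p.1 : Matrix (Fin 3) (Fin 3) K))) ∧
        x 3 = std K 3 ᵥ* (p.1 : Matrix (Fin 3) (Fin 3) K) := by
  classical
  -- the matrix with rows x 0, x 1, x 2
  set X : Matrix (Fin 3) (Fin 3) K := Matrix.of ![x 0, x 1, x 2] with hX
  have hXdet : X.det ≠ 0 := h0
  have hXu : IsUnit X.det := isUnit_iff_ne_zero.2 hXdet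
  -- coordinates of x 3
  set α : Fin 3 → K := x 3 ᵥ* X⁻¹ with hα
  have hα3 : α ᵥ* X = x 3 := by
    rw [hα, Matrix.vecMul_vecMul, Matrix.nonsing_inv_mul X hXu, Matrix.vecMul_one]
  have hx3 : x 3 = α 0 • x 0 + α 1 • x 1 + α 2 • x 2 := by
    rw [← hα3]
    ext j
    simp [Matrix.vecMul, dotProduct, Fin.sum_univ_three, hX]
  have e1 : D3 (x 0) (x 1) (x 3) = α 2 * D3 (x 0) (x 1) (x 2) := by
    rw [hx3, FRE_exp, FRE_exp]
    simp only [Pi.add_apply, Pi.smul_apply, smul_eq_mul]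
    ring
  have e2 : D3 (x 0) (x 2) (x 3) = -(α 1 * D3 (x 0) (x 1) (x 2)) := by
    rw [hx3, FRE_exp, FRE_exp]
    simp only [Pi.add_apply, Pi.smul_apply, smul_eq_mul]
    ring
  have e3 : D3 (x 1) (x 2) (x 3) = α 0 * D3 (x 0) (x 1) (x 2) := by
    rw [hx3, FRE_exp, FRE_exp]
    simp only [Pi.add_apply, Pi.smul_apply, smul_eq_mul]
    ring
  have a2 : α 2 ≠ 0 := fun h => h1 (by rw [e1, h, zero_mul])
  have a1 : α 1 ≠ 0 := fun h => h2 (by rw [e2, h, zero_mul, neg_zero])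
  have a0 : α 0 ≠ 0 := fun h => h3 (by rw [e3, h, zero_mul])
  have ha : ∀ i, α i ≠ 0 := by intro i; fin_cases i <;> assumption
  -- rows of g
  have hrow : ∀ (i : Fin 3) (g : Matrix (Fin 3) (Fin 3) K), std K i.castSucc ᵥ* g = g i := by
    intro i g
    ext j
    fin_cases i <;> simp [std, Matrix.vecMul, dotProduct, Fin.sum_univ_three]
  have hrow3 : ∀ g : Matrix (Fin 3) (Fin 3) K, std K 3 ᵥ* g = g 0 + g 1 + g 2 := by
    intro g
    ext j
    simp [std, Matrix.vecMul, dotProduct, Fin.sum_univ_three]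
  have hXrow : ∀ i : Fin 3, X i = x i.castSucc := by
    intro i; fin_cases i <;> rfl
  let G : Matrix (Fin 3) (Fin 3) K := Matrix.diagonal α * X
  have hGrow : ∀ i, G i = α i • X i := by
    intro i; ext j; simp [G, Matrix.diagonal_mul]
  have hGdet : G.det ≠ 0 := by
    simp only [G, Matrix.det_mul, Matrix.det_diagonal]
    exact mul_ne_zero (Finset.prod_ne_zero_iff.2 fun i _ => ha i) hXdet
  refine ⟨(Matrix.GeneralLinearGroup.mkOfDetNeZero G hGdet, fun i => (Units.mk0 (α i) (ha i))⁻¹), ⟨?_, ?_⟩, ?_⟩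
  · intro i
    rw [hrow]
    show x i.castSucc = ((Units.mk0 (α i) (ha i))⁻¹ : Kˣ).1 • G i
    rw [hGrow, smul_smul, Units.val_inv_eq_inv_val, Units.val_mk0, inv_mul_cancel₀ (ha i), one_smul, hXrow]
  · show x 3 = std K 3 ᵥ* G
    rw [hrow3, hGrow, hGrow, hGrow, hx3]
    rfl
  · rintro ⟨g, c⟩ ⟨hc, hg⟩
    have hc' : ∀ i : Fin 3, x i.castSucc = (c i : K) • (g : Matrix (Fin 3) (Fin 3) K) i := by
      intro i
      have := hc i
      rw [hrow] at this
      exact this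
    have hg' : x 3 = (g : Matrix (Fin 3) (Fin 3) K) 0 + (g : Matrix (Fin 3) (Fin 3) K) 1 +
        (g : Matrix (Fin 3) (Fin 3) K) 2 := by
      have := hg
      rw [hrow3] at this
      exact this
    -- rows of g in terms of X
    have hgi : ∀ i : Fin 3, (g : Matrix (Fin 3) (Fin 3) K) i = ((c i)⁻¹ : Kˣ).1 • X i := by
      intro i
      rw [hXrow, hc' i, smul_smul, Units.inv_mul, one_smul]
    have h4 : (fun i => (((c i)⁻¹ : Kˣ) : K)) ᵥ* X = x 3 := by
      rw [hg', hgi, hgi, hgi]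
      ext j
      simp [Matrix.vecMul, dotProduct, Fin.sum_univ_three]
    have h5 : (fun i => (((c i)⁻¹ : Kˣ) : K)) = α := by
      have := congrArg (fun v => v ᵥ* X⁻¹) (h4.trans hα3.symm)
      simp only [Matrix.vecMul_vecMul, Matrix.mul_nonsing_inv X hXu, Matrix.vecMul_one] at this
      exact this
    have h6 : ∀ i, ((c i)⁻¹ : Kˣ) = Units.mk0 (α i) (ha i) := by
      intro i
      ext
      exact congrFun h5 i
    refine Prod.ext ?_ ?_
    · apply Units.ext
      show (g : Matrix (Fin 3) (Fin 3) K) = G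
      ext i j
      rw [hgi, hGrow, h6]
      rfl
    · funext i
      show c i = (Units.mk0 (α i) (ha i))⁻¹
      rw [← h6, inv_inv]

/-- MODULE FRC (M). The bijection `(g, c, y) ↦ x`: `x (inl i) = c i • (std i ᵥ* g)` for `i < 3`,
`x (inl 3) = std 3 ᵥ* g`, `x (inr w) = y w ᵥ* g`, from `GL × (Fin 3 → Kˣ) × {y // VC C N (Sum.elim (std K) y)}` to
`{x // VC C N x}`: conditions by `vc_scale` (with `s = c i` at `inl i`, `i < 3`, and `1` otherwise), existence and
uniqueness of `(g, c)` by `frame_unique` (the four triples of `frm` are in `N`), and then `y w = x (inr w) ᵥ* g⁻¹`. -/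
theorem frame_count {K Q : Type} [Field K] [Finite K] [Finite Q]
    (C N : Set ((Fin 4 ⊕ Q) × (Fin 4 ⊕ Q) × (Fin 4 ⊕ Q))) (hN : frm ⊆ N) :
    Nat.card {x : Fin 4 ⊕ Q → Fin 3 → K // VC C N x} =
      Nat.card (GL (Fin 3) K) * (Nat.card K - 1) ^ 3 *
        Nat.card {y : Q → Fin 3 → K // VC C N (Sum.elim (std K) y)} := by
  classical
  -- the scalars
  let sc : (Fin 3 → Kˣ) → Fin 4 ⊕ Q → Kˣ := fun c => Sum.elim (Fin.snoc (α := fun _ => Kˣ) c 1) fun _ => 1
  let f : (GL (Fin 3) K × (Fin 3 → Kˣ)) × {y : Q → Fin 3 → K // VC C N (Sum.elim (std K) y)} →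
      {x : Fin 4 ⊕ Q → Fin 3 → K // VC C N x} := fun p =>
    ⟨fun w => (sc p.1.2 w : K) • (Sum.elim (std K) p.2.1 w ᵥ* (p.1.1 : Matrix (Fin 3) (Fin 3) K)),
      (vc_scale C N p.1.1 (sc p.1.2) _).2 p.2.2⟩
  have hsc : ∀ (c : Fin 3 → Kˣ) (i : Fin 3), sc c (Sum.inl i.castSucc) = c i := fun c i => by
    simp only [sc, Sum.elim_inl, Fin.snoc_castSucc]
  have hsc3 : ∀ c : Fin 3 → Kˣ, sc c (Sum.inl 3) = 1 := fun c => by
    have : (3 : Fin 4) = Fin.last 3 := rfl
    simp only [sc, Sum.elim_inl, this, Fin.snoc_last]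
  -- the frame of a solution
  have key : ∀ x : Fin 4 ⊕ Q → Fin 3 → K, VC C N x → ∃! p : GL (Fin 3) K × (Fin 3 → Kˣ),
      (∀ i : Fin 3, x (Sum.inl i.castSucc) = (p.2 i : K) • (std K i.castSucc ᵥ* (p.1 : Matrix (Fin 3) (Fin 3) K))) ∧
        x (Sum.inl 3) = std K 3 ᵥ* (p.1 : Matrix (Fin 3) (Fin 3) K) := by
    intro x hx
    refine frame_unique (fun i => x (Sum.inl i)) ?_ ?_ ?_ ?_
    · exact hx.2.2 (Sum.inl 0, Sum.inl 1, Sum.inl 2) (hN (Or.inl rfl))
    · exact hx.2.2 (Sum.inl 0, Sum.inl 1, Sum.inl 3) (hN (Or.inr (Or.inl rfl)))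
    · exact hx.2.2 (Sum.inl 0, Sum.inl 2, Sum.inl 3) (hN (Or.inr (Or.inr (Or.inl rfl))))
    · exact hx.2.2 (Sum.inl 1, Sum.inl 2, Sum.inl 3) (hN (Or.inr (Or.inr (Or.inr rfl))))
  have hff : ∀ p, (∀ i : Fin 3, (f p).1 (Sum.inl i.castSucc) = (p.1.2 i : K) • (std K i.castSucc ᵥ* (p.1.1 : Matrix (Fin 3) (Fin 3) K))) ∧
        (f p).1 (Sum.inl 3) = std K 3 ᵥ* (p.1.1 : Matrix (Fin 3) (Fin 3) K) := by
    intro p
    refine ⟨fun i => ?_, ?_⟩
    · show (sc p.1.2 (Sum.inl i.castSucc) : K) • _ = _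
      rw [hsc]
      rfl
    · show (sc p.1.2 (Sum.inl 3) : K) • _ = _
      rw [hsc3, Units.val_one, one_smul]
      rfl
  have hfr : ∀ p (w : Q), (f p).1 (Sum.inr w) = p.2.1 w ᵥ* (p.1.1 : Matrix (Fin 3) (Fin 3) K) := by
    intro p w
    show (sc p.1.2 (Sum.inr w) : K) • _ = _
    simp only [sc, Sum.elim_inr, Units.val_one, one_smul]
  have hbij : Function.Bijective f := by
    constructor
    · intro p p' h
      obtain ⟨q, hq, hu⟩ := key (f p).1 (f p).2
      have h1 : p.1 = q := hu p.1 (hff p)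
      have h2 : p'.1 = q := hu p'.1 (by rw [h]; exact hff p')
      have h3 : p.1 = p'.1 := h1.trans h2.symm
      refine Prod.ext h3 (Subtype.ext (funext fun w => ?_))
      have h4 : p.2.1 w ᵥ* (p.1.1 : Matrix (Fin 3) (Fin 3) K) = p'.2.1 w ᵥ* (p.1.1 : Matrix (Fin 3) (Fin 3) K) := by
        rw [← hfr p w, h, hfr p' w, h3]
      have h5 := congrArg (fun v => v ᵥ* ((p.1.1⁻¹ : GL (Fin 3) K) : Matrix (Fin 3) (Fin 3) K)) h4
      simp only [Matrix.vecMul_vecMul] at h5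
      have h6 : (p.1.1 : Matrix (Fin 3) (Fin 3) K) * ((p.1.1⁻¹ : GL (Fin 3) K) : Matrix (Fin 3) (Fin 3) K) = 1 := by
        rw [← Units.val_mul, mul_inv_cancel, Units.val_one]
      rw [h6, Matrix.vecMul_one, Matrix.vecMul_one] at h5
      exact h5
    · intro x
      obtain ⟨q, hq, -⟩ := key x.1 x.2
      have h6 : ((q.1⁻¹ : GL (Fin 3) K) : Matrix (Fin 3) (Fin 3) K) * (q.1 : Matrix (Fin 3) (Fin 3) K) = 1 := by
        rw [← Units.val_mul, inv_mul_cancel, Units.val_one]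
      let y : Q → Fin 3 → K := fun w => x.1 (Sum.inr w) ᵥ* ((q.1⁻¹ : GL (Fin 3) K) : Matrix (Fin 3) (Fin 3) K)
      have hx : x.1 = fun w => (sc q.2 w : K) • (Sum.elim (std K) y w ᵥ* (q.1 : Matrix (Fin 3) (Fin 3) K)) := by
        funext w
        rcases w with i | w
        · refine Fin.lastCases ?_ (fun i => ?_) i
          · have : Fin.last 3 = (3 : Fin 4) := rfl
            rw [this, hsc3, Units.val_one, one_smul]
            exact hq.2
          · rw [hsc]
            exact hq.1 i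
        · show x.1 (Sum.inr w) = ((1 : Kˣ) : K) • ((x.1 (Sum.inr w) ᵥ*
            ((q.1⁻¹ : GL (Fin 3) K) : Matrix (Fin 3) (Fin 3) K)) ᵥ* (q.1 : Matrix (Fin 3) (Fin 3) K))
          rw [Matrix.vecMul_vecMul, h6, Matrix.vecMul_one, Units.val_one, one_smul]
      have hy : VC C N (Sum.elim (std K) y) := by
        rw [← vc_scale C N q.1 (sc q.2), ← hx]
        exact x.2
      exact ⟨(q, ⟨y, hy⟩), Subtype.ext hx.symm⟩
  rw [← Nat.card_congr (Equiv.ofBijective f hbij), Nat.card_prod, Nat.card_prod, Nat.card_fun, Nat.card_units,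
    Nat.card_eq_fintype_card (α := Fin 3), Fintype.card_fin]

/-- MODULE GLC (S). `Matrix.card_GL_field`. -/
theorem card_gl3 (F : FinField) :
    (Nat.card (GL (Fin 3) F.K) : ℤ) = (F.q ^ 3 - 1) * (F.q ^ 3 - F.q) * (F.q ^ 3 - F.q ^ 2) := by
  have : Fintype F.K := Fintype.ofFinite _
  rw [Matrix.card_GL_field, Fin.prod_univ_three]
  have h1 : 1 ≤ Fintype.card F.K := Fintype.card_pos
  have h2 : (Nat.card F.K) = Fintype.card F.K := Nat.card_eq_fintype_card
  unfold FinField.q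
  rw [h2]
  have e0 : Fintype.card F.K ^ ((0 : Fin 3) : ℕ) ≤ Fintype.card F.K ^ 3 := Nat.pow_le_pow_right h1 (by norm_num)
  have e1 : Fintype.card F.K ^ ((1 : Fin 3) : ℕ) ≤ Fintype.card F.K ^ 3 := Nat.pow_le_pow_right h1 (by norm_num)
  have e2 : Fintype.card F.K ^ ((2 : Fin 3) : ℕ) ≤ Fintype.card F.K ^ 3 := Nat.pow_le_pow_right h1 (by norm_num)
  push_cast [Nat.cast_sub e0, Nat.cast_sub e1, Nat.cast_sub e2]
  simp

end Pool.Agent.Ptl
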